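import Pool.Agent.H79.Alg.Prog

/-!
Correctness of the pieces of the decision procedure: arithmetic and root approximation.
-/

open Polynomial

namespace Pool.Agent.H79.Cx

theorem factZ_eq (n : ℕ) : factZ n = (n.factorial : ℤ) := by
  have key : ∀ i : ℕ, loop (fun u acc => acc * ((u + 1 : ℕ) : ℤ)) i (1 : ℤ) =
      (i.factorial : ℤ) := by
    intro i
    induction i with
    | zero => simp [loop]
    | succ i ih =>
      change loop (fun u acc => acc * ((u + 1 : ℕ) : ℤ)) i (1 : ℤ) * ((i + 1 : ℕ) : ℤ) = _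
      rw [ih, Nat.factorial_succ, ← Nat.cast_mul, mul_comm]
  unfold factZ
  rw [loopC_eq, key]
  intro i hi
  rw [key]
  refine (sz_int_le _).trans ?_
  have h1 : bl (((i + 1).factorial : ℕ) : ℤ) ≤ n * n + 1 := by
    rw [bl_le_iff, abs_of_nonneg (by positivity)]
    have h2 : (i + 1).factorial < 2 ^ (n * n + 1) := by
      calc (i + 1).factorial ≤ n.factorial := Nat.factorial_le hi
        _ ≤ n ^ n := Nat.factorial_le_pow n
        _ ≤ (2 ^ n) ^ n := Nat.pow_le_pow_left Nat.lt_two_pow_self.le n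
        _ = 2 ^ (n * n) := by rw [← pow_mul]
        _ < 2 ^ (n * n + 1) := Nat.pow_lt_pow_right (by norm_num) (by omega)
    exact_mod_cast h2
  omega

theorem chZ_eq (i t : ℕ) : chZ i t = (i.choose t : ℤ) := by
  unfold chZ
  split_ifs with h
  · rw [factZ_eq, factZ_eq, factZ_eq, Nat.choose_eq_factorial_div_factorial h]
    push_cast
    rfl
  · rw [Nat.choose_eq_zero_of_lt (by omega)]; rfl

theorem tcC_eq {L : List ℤ} {h : ℕ → ℤ} {d : ℕ} (hL : ∀ i < d + 1, L.getD i 0 = h i) (m : ℕ)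
    (k : ℤ) (t : ℕ) : tcC L d m k t = H79.tcoef h d m k t := by
  unfold tcC H79.tcoef
  refine Finset.sum_congr rfl fun i hi => ?_
  rw [hL i (Finset.mem_range.1 hi), chZ_eq]

theorem sgnZ_abs_le (a : ℤ) : |H79.sgnZ a| ≤ 1 := by
  unfold H79.sgnZ
  split_ifs <;> simp

theorem svLoop_le (c : ℕ → ℤ) (n : ℕ) :
    |(loop (fun t st => H79.svStep (c t) st) n (0, 0)).1| ≤ 1 ∧
      (loop (fun t st => H79.svStep (c t) st) n (0, 0)).2 ≤ n := by
  induction n with
  | zero => simp [loop]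
  | succ n ih =>
    change |(H79.svStep (c n) (loop (fun t st => H79.svStep (c t) st) n (0, 0))).1| ≤ 1 ∧
      (H79.svStep (c n) (loop (fun t st => H79.svStep (c t) st) n (0, 0))).2 ≤ n + 1
    obtain ⟨h1, h2⟩ := ih
    generalize loop (fun t st => H79.svStep (c t) st) n (0, 0) = st at h1 h2
    unfold H79.svStep
    split_ifs
    · exact ⟨h1, by omega⟩
    · exact ⟨sgnZ_abs_le _, by simp only; omega⟩
    · exact ⟨sgnZ_abs_le _, by simp only; omega⟩

theorem vcC_eq {L : List ℤ} {h : ℕ → ℤ} {d : ℕ} (hL : ∀ i < d + 1, L.getD i 0 = h i) (m : ℕ)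
    (k : ℤ) : vcC L d m k = H79.vcount h d m k := by
  unfold vcC H79.vcount
  have h1 : (fun t st => H79.svStep (tcC L d m k t) st) =
      fun t st => H79.svStep (H79.tcoef h d m k t) st := by
    funext t st
    rw [tcC_eq hL]
  rw [h1, loopC_eq]
  intro i hi
  obtain ⟨g1, g2⟩ := svLoop_le (H79.tcoef h d m k) (i + 1)
  revert g1 g2
  generalize loop (fun t st => H79.svStep (H79.tcoef h d m k t) st) (i + 1) (0, 0) = st
  intro g1 g2
  have g3 : bl st.1 ≤ 1 := by
    rw [bl_le_iff]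
    exact g1.trans_lt (by norm_num)
  have g4 := sz_int_le st.1
  have g5 := sz_nat st.2
  have g6 : sz st = 1 + sz st.1 + sz st.2 := rfl
  omega

theorem rsC_spec {L : List ℤ} {h : ℕ → ℤ} {m s : ℕ} {S : Finset ℝ} {a : ℝ} (ha : a ≠ 0)
    (hL : ∀ i < S.card + 1, L.getD i 0 = h i)
    (hh : H79.polR h (S.card + 1) = C a * ∏ θ ∈ S, (X - C θ))
    (hs : ∀ θ ∈ S, |2 ^ m * θ| < 2 ^ s) (i : Fin S.card) :
    |(rsC L S.card m i s : ℝ) - 2 ^ m * S.orderEmbOfFin rfl i| ≤ 1 := by
  obtain ⟨h1, h2⟩ := H79.rootSearch_spec h m s S ha hh hs i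
  have h3 : rsC L S.card m i s = H79.rootSearch (H79.vcount h S.card m) S.card i s := by
    unfold rsC H79.rootSearch
    have e1 : (fun (u : ℕ) (k : ℤ) => if S.card - (i : ℕ) ≤ vcC L S.card m (k + 2 ^ (s - u)) then
        k + 2 ^ (s - u) else k) = fun u k => if S.card - (i : ℕ) ≤
        H79.vcount h S.card m (k + 2 ^ (s - u)) then k + 2 ^ (s - u) else k := by
      funext u k
      rw [vcC_eq hL]
    rw [e1, loopC_eq]
    intro j hj
    refine (sz_int_le _).trans ?_
    have e2 := h2 (j + 1) (by omega)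
    have e3 : bl (loop (fun u k => if S.card - (i : ℕ) ≤
        H79.vcount h S.card m (k + 2 ^ (s - u)) then k + 2 ^ (s - u) else k) (j + 1) (-2 ^ s)) ≤
        s + 2 := by
      rw [bl_le_iff]
      exact e2.trans_lt (pow_lt_pow_right₀ (by norm_num) (by omega))
    omega
  rw [h3]
  exact h1

end Pool.Agent.H79.Cx
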