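import Pool.Agent.H79.Alg.Correct1

/-!
Correctness of the pieces of the decision procedure: powers of the adjacency matrix applied to a
vector, and approximations of the eigenvalues in the support.
-/

open Polynomial Matrix

namespace Pool.Agent.H79.Cx

theorem getD_ofFn {β : Type} {n : ℕ} (f : Fin n → β) (i : ℕ) (d : β) :
    (List.ofFn f).getD i d = if h : i < n then f ⟨i, h⟩ else d := by
  rw [List.getD_eq_getElem?_getD]
  split_ifs with h
  · rw [List.getElem?_ofFn]; simp [h]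
  · rw [List.getElem?_ofFn]; simp [h]

theorem tab_eq_ofFn {β : Type} (n : ℕ) (f : ℕ → β) : tab n f = List.ofFn (fun i : Fin n => f i) := by
  apply List.ext_getElem
  · simp
  · intro i h1 h2
    simp [tab]

section krylov

variable {n : ℕ} {A : Matrix (Fin n) (Fin n) ℤ} {I : List (List Bool)}
  (hI : ∀ i j : Fin n, aZ I i j = A i j)

include hI in
theorem stepK_eq (v : Fin n → ℤ) : stepK I n (List.ofFn v) = List.ofFn (A *ᵥ v) := by
  unfold stepK
  rw [tab_eq_ofFn]
  congr 1
  funext s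
  rw [Finset.sum_range, Matrix.mulVec, dotProduct]
  refine Finset.sum_congr rfl fun t _ => ?_
  rw [hI, getD_ofFn, dif_pos t.2]

theorem pow_mulVec_le (hA1 : ∀ i j, |A i j| ≤ 1) {a : Fin n → ℤ} (ha : ∀ t, |a t| ≤ 1) (i : ℕ)
    (t : Fin n) : |(A ^ i *ᵥ a) t| ≤ 2 ^ (n * i) := by
  induction i generalizing t with
  | zero => simpa using ha t
  | succ i ih =>
    have h1 : A ^ (i + 1) *ᵥ a = A *ᵥ (A ^ i *ᵥ a) := by rw [pow_succ', Matrix.mulVec_mulVec]
    rw [h1]
    generalize A ^ i *ᵥ a = v at ih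
    have h0 : (A *ᵥ v) t = ∑ s, A t s * v s := rfl
    rw [h0]
    calc |∑ s, A t s * v s| ≤ ∑ s, |A t s * v s| := Finset.abs_sum_le_sum_abs _ _
      _ ≤ ∑ _s : Fin n, 2 ^ (n * i) := by
          refine Finset.sum_le_sum fun s _ => ?_
          rw [abs_mul]
          have e1 := hA1 t s
          have e2 := ih s
          have e3 := abs_nonneg (A t s)
          have e4 := abs_nonneg (v s)
          nlinarith
      _ = n * 2 ^ (n * i) := by simp
      _ ≤ 2 ^ n * 2 ^ (n * i) := by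
          refine mul_le_mul_of_nonneg_right ?_ (by positivity)
          exact_mod_cast Nat.lt_two_pow_self.le
      _ = 2 ^ (n * (i + 1)) := by rw [← pow_add]; congr 1; ring

theorem sz_ofFn_le {f : Fin n → ℤ} {B : ℕ} (h : ∀ t, sz (f t) ≤ B) :
    sz (List.ofFn f) ≤ 1 + n * (1 + B) := by
  have := sz_list_le (List.ofFn f) B (fun b hb => by
    rw [List.mem_ofFn] at hb
    obtain ⟨t, rfl⟩ := hb
    exact h t)
  simpa using this

include hI in
theorem kryC_eq (hA1 : ∀ i j, |A i j| ≤ 1) {a : Fin n → ℤ} (ha : ∀ t, |a t| ≤ 1) {i : ℕ}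
    (hi : i ≤ n) : kryC I n (List.ofFn a) i = List.ofFn (A ^ i *ᵥ a) := by
  have key : ∀ j : ℕ, loop (fun _ v => stepK I n v) j (List.ofFn a) = List.ofFn (A ^ j *ᵥ a) := by
    intro j
    induction j with
    | zero => simp [loop]
    | succ j ih =>
      change stepK I n (loop (fun _ v => stepK I n v) j (List.ofFn a)) = _
      rw [ih, stepK_eq hI, Matrix.mulVec_mulVec, ← pow_succ']
  unfold kryC
  rw [loopC_eq, key]
  intro j hj
  rw [key]
  have h1 : ∀ t, sz ((A ^ (j + 1) *ᵥ a) t) ≤ 9 + 4 * (n * n) := by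
    intro t
    refine (sz_int_le _).trans ?_
    have h2 : bl ((A ^ (j + 1) *ᵥ a) t) ≤ n * n + 1 := by
      rw [bl_le_iff]
      refine (pow_mulVec_le hA1 ha (j + 1) t).trans_lt ?_
      apply pow_lt_pow_right₀ (by norm_num)
      have : n * (j + 1) ≤ n * n := Nat.mul_le_mul_left _ (by omega)
      omega
    omega
  refine (sz_ofFn_le h1).trans ?_
  have : n * (1 + (9 + 4 * (n * n))) = n * (10 + 4 * (n * n)) := by ring
  omega

include hI in
/-- The relation found determines the support. -/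
theorem hL_spec (hA : A.IsSymm) (hA1 : ∀ i j, |A i j| ≤ 1) {a : Fin n → ℤ}
    (ha : ∀ t, |a t| ≤ 1) : ∃ h : ℕ → ℤ, hL I n (List.ofFn a) = tab ((suppF A a).card + 1) h ∧
      h (suppF A a).card ≠ 0 ∧ polR h ((suppF A a).card + 1) =
      C (h (suppF A a).card : ℝ) * ∏ θ ∈ suppF A a, (X - C θ) := by
  have hcard := card_suppF_le A a
  have hU : ∀ i < n + 1, ∀ t < n, ent (tab (n + 1) fun i => tab n fun t =>
      2 ^ H79.tau1 n * (kryC I n (List.ofFn a) i).getD t 0) i t = u1 A a i t := by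
    intro i hi t ht
    unfold ent
    rw [getD_tab_lt _ _ hi, getD_tab_lt _ _ ht, kryC_eq hI hA1 ha (by omega), getD_ofFn]
    unfold u1
    rw [dif_pos ht, dif_pos ht]
  obtain ⟨h, h1, h2, h3⟩ := LLL.relOut_spec (e := H79.tau1 n + n * n + 1) (c₀ := n)
    (τ := H79.tau1 n) (rmax := n + 1) (s := (suppF A a).card) (u := u1 A a) (by omega) hU
    (by
      intro i hi t ht
      unfold u1
      rw [dif_pos ht, abs_mul, abs_of_pos (by positivity : (0 : ℤ) < 2 ^ H79.tau1 n)]
      calc 2 ^ H79.tau1 n * |(A ^ i *ᵥ a) ⟨t, ht⟩| ≤ 2 ^ H79.tau1 n * 2 ^ (n * i) :=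
            mul_le_mul_of_nonneg_left (pow_mulVec_le hA1 ha i _) (by positivity)
        _ = 2 ^ (H79.tau1 n + n * i) := by rw [pow_add]
        _ ≤ 2 ^ (H79.tau1 n + n * n + 1) := by
            apply pow_le_pow_right₀ (by norm_num)
            have : n * i ≤ n * n := Nat.mul_le_mul_left _ (by omega)
            omega)
    (fun h r hr hh => u1_low hA a h hr hh) (u1_up hA hA1 a)
  exact ⟨h, h1, u1_result hA a h2 h3⟩

include hI in
/-- The approximations of the eigenvalues in the support. -/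
theorem kL_spec (hA : A.IsSymm) (hA1 : ∀ i j, |A i j| ≤ 1) {a : Fin n → ℤ}
    (ha : ∀ t, |a t| ≤ 1) :
    (kL n (hL I n (List.ofFn a))).length = (suppF A a).card ∧
      ∀ i : Fin (suppF A a).card, |(((kL n (hL I n (List.ofFn a))).getD i 0 : ℤ) : ℝ) -
        2 ^ m3 n * (suppF A a).orderEmbOfFin rfl i| ≤ 1 := by
  obtain ⟨h, h1, h2, h3⟩ := hL_spec hI hA hA1 ha
  rw [h1]
  unfold kL
  simp only [length_tab, Nat.add_sub_cancel]
  refine ⟨trivial, fun i => ?_⟩
  rw [getD_tab_lt _ _ i.2]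
  refine rsC_spec (h := h) (a := (h (suppF A a).card : ℝ)) (by exact_mod_cast h2) ?_ h3 ?_ i
  · intro j hj
    rw [getD_tab_lt _ _ hj]
  · intro θ hθ
    have h4 := abs_le_of_mem_specSupport hA1 hθ
    rw [abs_mul, abs_of_pos (by positivity : (0 : ℝ) < 2 ^ m3 n), pow_add]
    refine mul_lt_mul_of_pos_left (h4.trans_lt ?_) (by positivity)
    exact_mod_cast Nat.lt_two_pow_self

end krylov

end Pool.Agent.H79.Cx
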