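import Pool.Agent.H79.Alg.Correct2

/-!
Correctness of the decision procedure: the matrix of scaled traces and the kernel test.
-/

open Polynomial Matrix

namespace Pool.Agent.H79.Cx

theorem trc_spec {F : ℤ} {α : ℝ} {h : ℕ → ℤ} (hint : IsIntegral ℤ α)
    (hsF : ((minpoly ℤ α).natDegree : ℤ) ∣ F) (h0 : h (minpoly ℤ α).natDegree ≠ 0)
    (hc : ∀ i ≤ (minpoly ℤ α).natDegree,
      h i = h (minpoly ℤ α).natDegree * (minpoly ℤ α).coeff i) :
    ((trc F (tab ((minpoly ℤ α).natDegree + 1) h) : ℤ) : ℚ) = F * ntr α ∧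
      |trc F (tab ((minpoly ℤ α).natDegree + 1) h)| ≤
        |F| * |(minpoly ℤ α).coeff ((minpoly ℤ α).natDegree - 1)| := by
  have hpos : 0 < (minpoly ℤ α).natDegree := minpoly.natDegree_pos hint
  have hfield := minpoly.isIntegrallyClosed_eq_field_fractions' ℚ hint
  have hmon := minpoly.monic hint
  have hntr : ntr α = -((minpoly ℤ α).coeff ((minpoly ℤ α).natDegree - 1) : ℚ) /
      (minpoly ℤ α).natDegree := by
    unfold ntr
    rw [hfield, hmon.natDegree_map, nextCoeff_of_natDegree_pos (by rw [hmon.natDegree_map]; exact hpos),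
      hmon.natDegree_map, coeff_map]
    simp
  set s := (minpoly ℤ α).natDegree with hs
  obtain ⟨F', hF'⟩ := hsF
  have hs0 : (s : ℤ) ≠ 0 := by exact_mod_cast hpos.ne'
  have htrc : trc F (tab (s + 1) h) = -(F' * (minpoly ℤ α).coeff (s - 1)) := by
    unfold trc
    rw [length_tab, show s + 1 - 2 = s - 1 by omega, Nat.add_sub_cancel,
      getD_tab_lt _ _ (by omega : s - 1 < s + 1), getD_tab_lt _ _ (by omega : s < s + 1),
      hc (s - 1) (by omega), hF']
    have e1 : -(↑s * F' * (h s * (minpoly ℤ α).coeff (s - 1))) =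
        (s : ℤ) * h s * -(F' * (minpoly ℤ α).coeff (s - 1)) := by ring
    rw [e1]
    exact Int.mul_ediv_cancel_left _ (mul_ne_zero hs0 h0)
  have hs0' : (s : ℚ) ≠ 0 := by exact_mod_cast hpos.ne'
  constructor
  · rw [htrc, hntr, hF']
    push_cast
    field_simp
  · rw [htrc, abs_neg, abs_mul, hF', abs_mul]
    refine mul_le_mul_of_nonneg_right ?_ (abs_nonneg _)
    have : 1 ≤ |(s : ℤ)| := Int.one_le_abs hs0
    nlinarith [abs_nonneg F']

section

variable {n : ℕ} {A : Matrix (Fin n) (Fin n) ℤ} (hA : A.IsSymm) (hA1 : ∀ i j, |A i j| ≤ 1)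
  {x y : ℝ} (hx : (castM A).charpoly.IsRoot x) (hy : (castM A).charpoly.IsRoot y)
  (hxn : |x| ≤ n) (hyn : |y| ≤ n) {k1 k2 : ℤ}
  (h1 : |(k1 : ℝ) - 2 ^ m3 n * x| ≤ 1) (h2 : |(k2 : ℝ) - 2 ^ m3 n * y| ≤ 1)

include hA hA1 hx hy hxn hyn h1 h2 in
theorem trcC_spec : ((trcC n (k1 * k2) : ℤ) : ℚ) = ((n * n).factorial : ℚ) * ntr (x * y) ∧
    |trcC n (k1 * k2)| ≤ 2 ^ a5 n := by
  obtain ⟨hint, hdeg, hcoef⟩ := minpoly_facts hA1 hx hy
  have hU : ∀ i < n * n + 1, ∀ t < 1, ent (tab (n * n + 1) fun i => tab 1 fun _ =>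
      w3 n (k1 * k2) i) i t = w3 n (k1 * k2) i := by
    intro i hi t ht
    unfold ent
    rw [getD_tab_lt _ _ hi, getD_tab_lt _ _ ht]
  obtain ⟨h, e1, e2, e3⟩ := recog hA hA1 hx hy hxn hyn h1 h2 hU
  have hdvd : ((minpoly ℤ (x * y)).natDegree : ℤ) ∣ factZ (n * n) := by
    rw [factZ_eq]
    have := Nat.dvd_factorial (minpoly.natDegree_pos hint) hdeg
    exact_mod_cast this
  obtain ⟨g1, g2⟩ := trc_spec (h := h) hint hdvd e2 e3
  have htrc : trcC n (k1 * k2) =
      trc (factZ (n * n)) (tab ((minpoly ℤ (x * y)).natDegree + 1) h) := by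
    unfold trcC
    rw [e1]
  rw [htrc]
  refine ⟨?_, ?_⟩
  · rw [g1, factZ_eq]; norm_cast
  · refine g2.trans ?_
    rw [factZ_eq]
    have f1 : |(((n * n).factorial : ℕ) : ℤ)| ≤ 2 ^ (n * n * (n * n)) := by
      rw [abs_of_nonneg (by positivity)]
      have : (n * n).factorial ≤ 2 ^ (n * n * (n * n)) := by
        calc (n * n).factorial ≤ (n * n) ^ (n * n) := Nat.factorial_le_pow _
          _ ≤ (2 ^ (n * n)) ^ (n * n) := Nat.pow_le_pow_left Nat.lt_two_pow_self.le _
          _ = 2 ^ (n * n * (n * n)) := by rw [← pow_mul]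
      exact_mod_cast this
    unfold a5 hh3
    rw [pow_add]
    exact mul_le_mul f1 (hcoef _) (abs_nonneg _) (by positivity)

end

/-- The kernel test for families of eigenvalues. -/
theorem finC_spec {n : ℕ} {A : Matrix (Fin n) (Fin n) ℤ} (hA : A.IsSymm)
    (hA1 : ∀ i j, |A i j| ≤ 1) {p q : ℕ} {x : Fin p → ℝ} {y : Fin q → ℝ}
    (hx : ∀ i, (castM A).charpoly.IsRoot (x i)) (hy : ∀ i, (castM A).charpoly.IsRoot (y i))
    (hxn : ∀ i, |x i| ≤ n) (hyn : ∀ i, |y i| ≤ n)
    (hxt : ∀ i, TotallyReal (x i)) (hyt : ∀ i, TotallyReal (y i))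
    {ks : List ℤ} (hlen : ks.length = p + q) (hpq : 0 < p + q)
    (h1 : ∀ i : Fin p, |((ks.getD i 0 : ℤ) : ℝ) - 2 ^ m3 n * x i| ≤ 1)
    (h2 : ∀ i : Fin q, |((ks.getD (p + i) 0 : ℤ) : ℝ) - 2 ^ m3 n * y i| ≤ 1) :
    finC n p ks = true ↔ RelCond x y := by
  classical
  set r := ks.length with hr
  -- the concatenated family
  set z : Fin (p + q) → ℝ := Fin.append x y with hz
  have hzr : ∀ i, (castM A).charpoly.IsRoot (z i) := by
    intro i
    refine Fin.addCases (fun i => ?_) (fun i => ?_) i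
    · rw [hz, Fin.append_left]; exact hx i
    · rw [hz, Fin.append_right]; exact hy i
  have hzn : ∀ i, |z i| ≤ n := by
    intro i
    refine Fin.addCases (fun i => ?_) (fun i => ?_) i
    · rw [hz, Fin.append_left]; exact hxn i
    · rw [hz, Fin.append_right]; exact hyn i
  have hzk : ∀ i : Fin (p + q), |((ks.getD i 0 : ℤ) : ℝ) - 2 ^ m3 n * z i| ≤ 1 := by
    intro i
    refine Fin.addCases (fun i => ?_) (fun i => ?_) i
    · rw [hz, Fin.append_left]; exact h1 i
    · rw [hz, Fin.append_right]; exact h2 i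
  set m : ℕ → ℕ → ℤ := fun i t =>
    if t < r then trcC n (ks.getD i 0 * ks.getD t 0) else 1 with hm
  have hmval : ∀ i t : Fin (p + q), ((m i t : ℤ) : ℚ) = ((n * n).factorial : ℚ) * ntr (z i * z t) := by
    intro i t
    rw [hm]
    simp only
    rw [if_pos (by rw [hlen]; exact t.2)]
    exact (trcC_spec hA hA1 (hzr i) (hzr t) (hzn i) (hzn t) (hzk i) (hzk t)).1
  have hmb : ∀ i < r, ∀ t < r + 1, |m i t| ≤ 2 ^ a5 n := by
    intro i hi t ht
    rw [hm]
    simp only
    split_ifs with htr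
    · rw [hlen] at hi htr
      exact (trcC_spec hA hA1 (hzr ⟨i, hi⟩) (hzr ⟨t, htr⟩) (hzn ⟨i, hi⟩) (hzn ⟨t, htr⟩)
        (hzk ⟨i, hi⟩) (hzk ⟨t, htr⟩)).2
    · rw [abs_one]; exact one_le_pow₀ (by norm_num)
  set w : ℕ → ℤ := fun i => if i < p then 0 else 1 with hw
  have htest : finC n p ks = true ↔ ∀ h : ℕ → ℤ,
      (∀ t < r + 1, ∑ i ∈ Finset.range r, h i * m i t = 0) →
        Even (∑ i ∈ Finset.range r, w i * h i) := by
    unfold finC
    refine LLL.parTest_spec (κ := kap r (r + 1) (a5 n)) (m := m) (w := w) ?_ ?_ ?_ ?_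
    · intro i hi t ht
      unfold ent
      rw [getD_tab_lt _ _ hi, getD_tab_lt _ _ ht]
    · intro i hi t ht
      rw [abs_mul, abs_of_pos (by positivity : (0 : ℤ) < 2 ^ kap r (r + 1) (a5 n)), pow_add]
      exact mul_le_mul_of_nonneg_left (hmb i hi t ht) (by positivity)
    · intro i hi
      rw [getD_tab_lt _ _ hi]
    · intro hex
      exact odd_kernel hmb (by omega) hex
  rw [htest, relCond_iff_ntr x y hxt hyt]
  have hF : ((n * n).factorial : ℚ) ≠ 0 := by exact_mod_cast (n * n).factorial_ne_zero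
  -- translation of the sums
  have hzsum : ∀ o : Fin p ⊕ Fin q, Sum.elim x y o = z (finSumFinEquiv o) := by
    rintro (i | i)
    · rw [finSumFinEquiv_apply_left, hz, Fin.append_left]; rfl
    · rw [finSumFinEquiv_apply_right, hz, Fin.append_right]; rfl
  have hker : ∀ h : ℕ → ℤ, (∀ t < r + 1, ∑ i ∈ Finset.range r, h i * m i t = 0) ↔
      (∀ o : Fin p ⊕ Fin q, ∑ p_1, ntr (Sum.elim x y o * Sum.elim x y p_1) *
        ((h (finSumFinEquiv p_1 : Fin (p + q)) : ℤ) : ℚ) = 0) ∧
      ∑ o : Fin p ⊕ Fin q, h (finSumFinEquiv o : Fin (p + q)) = 0 := by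
    intro h
    have g1 : ∑ o : Fin p ⊕ Fin q, h (finSumFinEquiv o : Fin (p + q)) =
        ∑ i ∈ Finset.range r, h i := by
      rw [hlen, Finset.sum_range]
      exact Equiv.sum_comp finSumFinEquiv (fun i : Fin (p + q) => h i)
    have g2 : ∑ i ∈ Finset.range r, h i * m i r = ∑ i ∈ Finset.range r, h i := by
      refine Finset.sum_congr rfl fun i _ => ?_
      rw [hm]
      simp
    have g3 : ∀ t : Fin (p + q), (∑ i ∈ Finset.range r, h i * m i t = 0 ↔
        ∑ i : Fin (p + q), ntr (z t * z i) * ((h i : ℤ) : ℚ) = 0) := by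
      intro t
      have e1 : ((∑ i ∈ Finset.range r, h i * m i t : ℤ) : ℚ) =
          ((n * n).factorial : ℚ) * ∑ i : Fin (p + q), ntr (z t * z i) * ((h i : ℤ) : ℚ) := by
        rw [hlen, Finset.sum_range, Finset.mul_sum]
        push_cast
        refine Finset.sum_congr rfl fun i _ => ?_
        rw [hmval, mul_comm (z t) (z i)]
        ring
      constructor
      · intro h0
        rw [h0, Int.cast_zero] at e1
        exact (mul_eq_zero.1 e1.symm).resolve_left hF
      · intro h0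
        rw [h0, mul_zero] at e1
        exact_mod_cast e1
    have g4 : ∀ o : Fin p ⊕ Fin q, ∑ p_1, ntr (Sum.elim x y o * Sum.elim x y p_1) *
        ((h (finSumFinEquiv p_1 : Fin (p + q)) : ℤ) : ℚ) =
        ∑ i : Fin (p + q), ntr (z (finSumFinEquiv o) * z i) * ((h i : ℤ) : ℚ) := by
      intro o
      rw [← Equiv.sum_comp finSumFinEquiv (fun i : Fin (p + q) =>
        ntr (z (finSumFinEquiv o) * z i) * ((h i : ℤ) : ℚ))]
      refine Finset.sum_congr rfl fun p_1 _ => ?_
      rw [hzsum, hzsum]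
    rw [g1]
    constructor
    · intro hall
      refine ⟨fun o => ?_, ?_⟩
      · rw [g4, ← g3]
        exact hall _ (by have := (finSumFinEquiv o : Fin (p + q)).2; omega)
      · rw [← g2]; exact hall r (by omega)
    · rintro ⟨ha, hb⟩ t ht
      by_cases htr : t < r
      · have ht' : t < p + q := by omega
        have := (g3 ⟨t, ht'⟩).2
        refine this ?_
        have e2 := ha (finSumFinEquiv.symm ⟨t, ht'⟩)
        rw [g4, Equiv.apply_symm_apply] at e2
        exact e2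
      · have : t = r := by omega
        rw [this, g2]; exact hb
  have hpar : ∀ h : ℕ → ℤ, ∑ i ∈ Finset.range r, w i * h i =
      ∑ k : Fin q, h (finSumFinEquiv (Sum.inr k : Fin p ⊕ Fin q) : Fin (p + q)) := by
    intro h
    rw [hlen, Finset.sum_range, Fin.sum_univ_add]
    have e1 : ∑ i : Fin p, w ((Fin.castAdd q i : Fin (p + q)) : ℕ) *
        h ((Fin.castAdd q i : Fin (p + q)) : ℕ) = 0 := by
      refine Finset.sum_eq_zero fun i _ => ?_
      rw [hw]
      simp
    rw [e1, zero_add]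
    refine Finset.sum_congr rfl fun i _ => ?_
    rw [finSumFinEquiv_apply_right, hw]
    simp
  constructor
  · intro hall l hl1 hl2
    set h : ℕ → ℤ := fun i => if hi : i < p + q then l (finSumFinEquiv.symm ⟨i, hi⟩) else 0 with hh
    have hhl : ∀ o : Fin p ⊕ Fin q, h (finSumFinEquiv o : Fin (p + q)) = l o := by
      intro o
      rw [hh]
      simp only
      rw [dif_pos (finSumFinEquiv o : Fin (p + q)).2, Fin.eta, Equiv.symm_apply_apply]
    have := hall h ((hker h).2 ⟨?_, ?_⟩)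
    · rw [hpar] at this
      simpa only [hhl] using this
    · intro o
      simp only [hhl]
      exact hl1 o
    · simp only [hhl]
      exact hl2
  · intro hall h hh
    obtain ⟨ha, hb⟩ := (hker h).1 hh
    rw [hpar]
    exact hall (fun o => h (finSumFinEquiv o : Fin (p + q))) ha hb

end Pool.Agent.H79.Cx
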