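import Pool.Agent.H79.PT.Loop

/-!
Descartes' rule of signs is exact for real-rooted polynomials.
-/

open Polynomial

namespace Pool.Agent.H79

theorem coeff_comp_neg_X' (P : ℝ[X]) (n : ℕ) : (P.comp (-X)).coeff n = (-1) ^ n * P.coeff n := by
  induction P using Polynomial.induction_on' with
  | add p q hp hq => rw [add_comp, coeff_add, hp, hq, coeff_add]; ring
  | monomial m a =>
    rw [monomial_comp, neg_pow, ← mul_assoc]
    have : (C a * (-1 : ℝ[X]) ^ m) = C (a * (-1) ^ m) := by simp
    rw [this, coeff_C_mul, coeff_X_pow, coeff_monomial]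
    by_cases h : n = m
    · subst h; simp; ring
    · simp [h, Ne.symm h]

theorem natDegree_comp_neg_X' (P : ℝ[X]) : (P.comp (-X)).natDegree = P.natDegree := by
  rw [natDegree_comp]; simp

theorem leadingCoeff_comp_neg_X' (P : ℝ[X]) :
    (P.comp (-X)).leadingCoeff = (-1) ^ P.natDegree * P.leadingCoeff := by
  rw [leadingCoeff, natDegree_comp_neg_X', coeff_comp_neg_X']
  rfl

theorem eraseLead_comp_neg_X' (P : ℝ[X]) : (P.comp (-X)).eraseLead = P.eraseLead.comp (-X) := by
  ext n
  rw [coeff_comp_neg_X', eraseLead_coeff, eraseLead_coeff, natDegree_comp_neg_X',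
    coeff_comp_neg_X']
  split_ifs <;> simp

theorem comp_neg_X_ne_zero {P : ℝ[X]} (hP : P ≠ 0) : P.comp (-X) ≠ 0 := by
  intro h
  apply hP
  have := congrArg (fun p => p.comp (-X)) h
  simpa [comp_neg_X_comp_neg_X] using this

theorem signVariations_add_le (n : ℕ) : ∀ P : ℝ[X], P ≠ 0 → P.natDegree = n →
    signVariations P + signVariations (P.comp (-X)) + P.natTrailingDegree ≤ P.natDegree := by
  induction n using Nat.strong_induction_on with
  | _ n ih =>
    intro P hP hn
    by_cases hQ : P.eraseLead = 0
    · have h1 : signVariations P = 0 := by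
        rw [signVariations_eq_eraseLead_add_ite hP, hQ, leadingCoeff_zero]
        have : SignType.sign P.leadingCoeff ≠ 0 := by
          rw [Ne, sign_eq_zero_iff]
          exact leadingCoeff_ne_zero.2 hP
        simp [this]
      have h2 : signVariations (P.comp (-X)) = 0 := by
        rw [signVariations_eq_eraseLead_add_ite (comp_neg_X_ne_zero hP), eraseLead_comp_neg_X',
          hQ, zero_comp, leadingCoeff_zero]
        have : SignType.sign (P.comp (-X)).leadingCoeff ≠ 0 := by
          rw [Ne, sign_eq_zero_iff]
          exact leadingCoeff_ne_zero.2 (comp_neg_X_ne_zero hP)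
        rw [signVariations_zero, sign_zero, neg_zero, if_neg this]
      rw [h1, h2]
      have := natTrailingDegree_le_natDegree P
      omega
    · have hlt : P.eraseLead.natDegree < P.natDegree := by
        have h1 := natDegree_pos_of_eraseLead_ne_zero hQ
        have h2 := eraseLead_natDegree_le P
        omega
      have h1 := ih _ (hn ▸ hlt) P.eraseLead hQ rfl
      have htr : P.natTrailingDegree ≤ P.eraseLead.natTrailingDegree := by
        apply natTrailingDegree_le_of_ne_zero
        have h3 : P.eraseLead.coeff P.eraseLead.natTrailingDegree ≠ 0 :=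
          trailingCoeff_nonzero_iff_nonzero.2 hQ
        rw [eraseLead_coeff] at h3
        split_ifs at h3 with h4
        · exact absurd rfl h3
        · exact h3
      rw [signVariations_eq_eraseLead_add_ite hP,
        signVariations_eq_eraseLead_add_ite (comp_neg_X_ne_zero hP), eraseLead_comp_neg_X',
        leadingCoeff_comp_neg_X', leadingCoeff_comp_neg_X']
      have hl1 : P.leadingCoeff ≠ 0 := leadingCoeff_ne_zero.2 hP
      have hl2 : P.eraseLead.leadingCoeff ≠ 0 := leadingCoeff_ne_zero.2 hQ
      rcases Nat.lt_or_ge (P.eraseLead.natDegree + 1) P.natDegree with h5 | h5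
      · split_ifs <;> omega
      · have h6 : P.natDegree = P.eraseLead.natDegree + 1 := by omega
        have h7 : ¬ (SignType.sign P.leadingCoeff = -SignType.sign P.eraseLead.leadingCoeff ∧
            SignType.sign ((-1) ^ P.natDegree * P.leadingCoeff) =
            -SignType.sign ((-1) ^ P.eraseLead.natDegree * P.eraseLead.leadingCoeff)) := by
          rintro ⟨e1, e2⟩
          rw [h6, pow_succ] at e2
          have e3 : SignType.sign ((-1 : ℝ) ^ P.eraseLead.natDegree * -1 * P.leadingCoeff) =
              SignType.sign ((-1 : ℝ) ^ P.eraseLead.natDegree) * -SignType.sign P.leadingCoeff := by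
            rw [mul_assoc, sign_mul, neg_one_mul, Left.sign_neg]
          rw [e3, sign_mul, e1] at e2
          have e4 : SignType.sign ((-1 : ℝ) ^ P.eraseLead.natDegree) ≠ 0 := by
            rw [Ne, sign_eq_zero_iff]; positivity
          have e5 : SignType.sign P.eraseLead.leadingCoeff ≠ 0 := by
            rw [Ne, sign_eq_zero_iff]; exact hl2
          revert e2 e4 e5
          generalize SignType.sign ((-1 : ℝ) ^ P.eraseLead.natDegree) = s
          generalize SignType.sign P.eraseLead.leadingCoeff = t
          revert s t
          decide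
        split_ifs with c1 c2 c2
        · exact absurd ⟨c1, c2⟩ h7
        · omega
        · omega
        · omega

theorem comp_neg_X_prod (s : Multiset ℝ) :
    ((s.map fun r => X - C r).prod).comp (-X) =
      C ((-1) ^ (Multiset.card s)) * ((s.map fun r => -r).map fun r => X - C r).prod := by
  induction s using Multiset.induction_on with
  | empty => simp
  | cons a s ih =>
    rw [Multiset.map_cons, Multiset.prod_cons, mul_comp, ih, Multiset.card_cons,
      Multiset.map_cons, Multiset.map_cons, Multiset.prod_cons, pow_succ, C_mul]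
    simp only [sub_comp, X_comp, C_comp, C_neg]
    have : (C (-1 : ℝ)) = -1 := by simp
    have h1 : (C 1 : ℝ[X]) = 1 := C_1
    rw [h1]
    ring

/-- Exactness of Descartes' rule for real-rooted polynomials. -/
theorem signVariations_eq_countP {a : ℝ} (ha : a ≠ 0) (s : Multiset ℝ) :
    signVariations (C a * (s.map fun r => X - C r).prod) = s.countP (0 < ·) := by
  set P : ℝ[X] := C a * (s.map fun r => X - C r).prod with hP
  have hprod : ∀ t : Multiset ℝ, (t.map fun r => X - C r).prod ≠ 0 := fun t =>
    (monic_multiset_prod_of_monic _ _ fun r _ => monic_X_sub_C r).ne_zero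
  have hP0 : P ≠ 0 := mul_ne_zero (by simpa using ha) (hprod s)
  have hroots : P.roots = s := by
    rw [hP, roots_C_mul _ ha, roots_multiset_prod_X_sub_C]
  have hdeg : P.natDegree = Multiset.card s := by
    rw [hP, natDegree_C_mul ha, natDegree_multiset_prod_X_sub_C_eq_card]
  have hcomp : P.comp (-X) = C (a * (-1) ^ (Multiset.card s)) *
      ((s.map fun r => -r).map fun r => X - C r).prod := by
    rw [hP, mul_comp, C_comp, comp_neg_X_prod, ← mul_assoc, ← C_mul]
  have hroots' : (P.comp (-X)).roots = s.map fun r => -r := by
    rw [hcomp, roots_C_mul _ (mul_ne_zero ha (by positivity)), roots_multiset_prod_X_sub_C]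
  have h1 := roots_countP_pos_le_signVariations P
  have h2 := roots_countP_pos_le_signVariations (P.comp (-X))
  rw [hroots] at h1
  rw [hroots'] at h2
  have h3 := signVariations_add_le _ P hP0 rfl
  have h4 : P.natTrailingDegree = s.count 0 := by
    rw [← rootMultiplicity_eq_natTrailingDegree', ← count_roots, hroots]
  rw [h4, hdeg] at h3
  have h5 : (s.map fun r => -r).countP (0 < ·) = s.countP (· < 0) := by
    rw [Multiset.countP_map, ← Multiset.countP_eq_card_filter]
    congr 1
    funext r
    simp
  rw [h5] at h2
  have h6 : s.countP (0 < ·) + s.countP (· < 0) + s.count 0 = Multiset.card s := by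
    clear_value P
    clear h1 h2 h3 h4 h5 hroots hroots' hcomp hdeg hP0 hP
    induction s using Multiset.induction_on with
    | empty => simp
    | cons r s ih =>
      rw [Multiset.countP_cons, Multiset.countP_cons, Multiset.count_cons, Multiset.card_cons]
      rcases lt_trichotomy r 0 with h | h | h
      · rw [if_neg (not_lt.2 h.le), if_pos h, if_neg h.ne']; omega
      · subst h; simp; omega
      · rw [if_pos h, if_neg (not_lt.2 h.le), if_neg h.ne]; omega
  omega

/-- The sign of an integer, as an integer. -/
def sgnZ (a : ℤ) : ℤ := if 0 < a then 1 else if a < 0 then -1 else 0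

/-- One step of the computation of sign variations. -/
def svStep (a : ℤ) (st : ℤ × ℕ) : ℤ × ℕ :=
  if a = 0 then st else (sgnZ a, if st.1 * sgnZ a < 0 then st.2 + 1 else st.2)

/-- Value of a sign. -/
def stv (s : SignType) : ℤ := s.cast

theorem stv_sign (a : ℤ) : stv (SignType.sign (a : ℝ)) = sgnZ a := by
  unfold sgnZ stv
  rcases lt_trichotomy a 0 with h | h | h
  · have : ((a : ℤ) : ℝ) < 0 := by exact_mod_cast h
    rw [sign_neg this, if_neg (by omega), if_pos h]; rfl
  · subst h; simp
  · have : (0 : ℝ) < ((a : ℤ) : ℝ) := by exact_mod_cast h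
    rw [sign_pos this, if_pos h]; rfl

/-- The real polynomial with the first `m` coefficients of a sequence. -/
noncomputable def polR (c : ℕ → ℤ) (m : ℕ) : ℝ[X] :=
  ∑ i ∈ Finset.range m, C ((c i : ℤ) : ℝ) * X ^ i

theorem polR_coeff (c : ℕ → ℤ) (m i : ℕ) :
    (polR c m).coeff i = if i < m then ((c i : ℤ) : ℝ) else 0 := by
  unfold polR
  rw [finsetSum_coeff]
  simp only [coeff_C_mul, coeff_X_pow]
  split_ifs with h
  · rw [Finset.sum_eq_single i]
    · simp
    · intro j _ hj; simp [Ne.symm hj]
    · intro hi; exact absurd (Finset.mem_range.2 h) hi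
  · apply Finset.sum_eq_zero
    intro j hj
    have : i ≠ j := by
      rintro rfl
      exact h (Finset.mem_range.1 hj)
    simp [this]

theorem polR_natDegree_lt {c : ℕ → ℤ} {m : ℕ} (h : polR c m ≠ 0) : (polR c m).natDegree < m := by
  by_contra hc
  have h1 : (polR c m).coeff (polR c m).natDegree ≠ 0 := leadingCoeff_ne_zero.2 h
  rw [polR_coeff, if_neg hc] at h1
  exact h1 rfl

theorem sv_inv (c : ℕ → ℤ) (m : ℕ) : Cx.loop (fun i st => svStep (c i) st) m (0, 0) =
    (stv (SignType.sign (polR c m).leadingCoeff), signVariations (polR c m)) := by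
  induction m with
  | zero => simp [Cx.loop, polR, stv]
  | succ m ih =>
    change svStep (c m) (Cx.loop (fun i st => svStep (c i) st) m (0, 0)) = _
    rw [ih]
    unfold svStep
    have hsucc : polR c (m + 1) = polR c m + C ((c m : ℤ) : ℝ) * X ^ m :=
      Finset.sum_range_succ _ _
    by_cases hc : c m = 0
    · rw [if_pos hc, hsucc, hc]
      simp
    · rw [if_neg hc]
      have hcR : ((c m : ℤ) : ℝ) ≠ 0 := by exact_mod_cast hc
      have hdeg : (polR c m).degree < (C ((c m : ℤ) : ℝ) * X ^ m).degree := by
        rw [degree_C_mul_X_pow _ hcR]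
        by_cases h0 : polR c m = 0
        · rw [h0, degree_zero]; exact WithBot.bot_lt_coe _
        · rw [degree_eq_natDegree h0]
          exact_mod_cast polR_natDegree_lt h0
      have hlead : (polR c (m + 1)).leadingCoeff = c m := by
        rw [hsucc, leadingCoeff_add_of_degree_lt hdeg, leadingCoeff_C_mul_X_pow]
      have herase : (polR c (m + 1)).eraseLead = polR c m := by
        rw [hsucc, eraseLead_add_of_degree_lt_right hdeg, eraseLead_C_mul_X_pow, add_zero]
      have hne : polR c (m + 1) ≠ 0 := by
        intro h
        rw [h, leadingCoeff_zero] at hlead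
        exact hcR hlead.symm
      rw [signVariations_eq_eraseLead_add_ite hne, herase, hlead, stv_sign]
      congr 1
      have key : (stv (SignType.sign (polR c m).leadingCoeff) * sgnZ (c m) < 0) ↔
          (SignType.sign ((c m : ℤ) : ℝ) = -SignType.sign (polR c m).leadingCoeff) := by
        rw [← stv_sign]
        have h1 : SignType.sign ((c m : ℤ) : ℝ) ≠ 0 := by
          rw [Ne, sign_eq_zero_iff]; exact hcR
        revert h1
        generalize SignType.sign ((c m : ℤ) : ℝ) = s
        generalize SignType.sign (polR c m).leadingCoeff = t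
        revert s t
        decide
      simp only [key]
      split_ifs <;> simp

end Pool.Agent.H79
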