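import Pool.Agent.H79.Alg.Correct3

/-!
The decision procedure is correct, and it yields a polynomial-time machine.
-/

open Polynomial Matrix

namespace Pool.Agent.H79

theorem castM_adjMatrix {n : ℕ} (G : SimpleGraph (Fin n)) [DecidableRel G.Adj] :
    castM (G.adjMatrix ℤ) = G.adjMatrix ℝ := by
  unfold castM
  ext i j
  simp only [SimpleGraph.adjMatrix_apply, Matrix.map_apply]
  split_ifs <;> simp

theorem range_suppF {n : ℕ} (A : Matrix (Fin n) (Fin n) ℤ) (a : Fin n → ℤ) :
    specSupport (castM A) (castV a) = Set.range ((suppF A a).orderEmbOfFin rfl) := by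
  rw [Finset.range_orderEmbOfFin]
  ext θ
  rw [Finset.mem_coe, mem_suppF]

theorem card_suppF_pos {n : ℕ} {A : Matrix (Fin n) (Fin n) ℤ} (hA : A.IsSymm) {a : Fin n → ℤ}
    (ha : a ≠ 0) : 0 < (suppF A a).card := by
  by_contra hcon
  have h0 : suppF A a = ∅ := Finset.card_eq_zero.1 (by omega)
  have h1 := (vanish_iff (castM_symm hA) (castV a) 1).2 (by
    intro θ hθ
    rw [← mem_suppF, h0] at hθ
    exact absurd hθ (Finset.notMem_empty _))
  rw [map_one, Matrix.one_mulVec] at h1
  apply ha
  funext i
  have := congrFun h1 i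
  simp only [castV, Pi.zero_apply] at this
  rw [Pi.zero_apply]
  exact_mod_cast this

namespace Cx

theorem bZ_decide (p : Prop) [Decidable p] : bZ (decide p) = if p then 1 else 0 := by
  unfold bZ
  by_cases h : p <;> simp [h]

/-- Correctness of the decision procedure. -/
theorem decPG_spec {n : ℕ} (G : SimpleGraph (Fin n)) [DecidableRel G.Adj] {u v : Fin n}
    (huv : u ≠ v) {I : List (List Bool)} (hlen : I.length = n + 2)
    (h0 : I.getD 0 [] = List.ofFn fun j : Fin n => decide (j = u))
    (h1 : I.getD 1 [] = List.ofFn fun j : Fin n => decide (j = v))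
    (hrow : ∀ i : Fin n, I.getD (i + 2) [] = List.ofFn fun j : Fin n => decide (G.Adj i j)) :
    decPG I = true ↔ PGST G u v := by
  have hn : I.length - 2 = n := by omega
  set A : Matrix (Fin n) (Fin n) ℤ := G.adjMatrix ℤ with hAdef
  have hA : A.IsSymm := G.isSymm_adjMatrix
  have hA1 : ∀ i j, |A i j| ≤ 1 := by
    intro i j
    rw [hAdef, SimpleGraph.adjMatrix_apply]
    split_ifs <;> simp
  have hI : ∀ i j : Fin n, aZ I i j = A i j := by
    intro i j
    unfold aZ
    rw [hrow, getD_ofFn, dif_pos j.2, hAdef, SimpleGraph.adjMatrix_apply]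
    simp
  set aP : Fin n → ℤ := Pi.single u 1 + Pi.single v 1 with haP
  set aM : Fin n → ℤ := Pi.single u 1 - Pi.single v 1 with haM
  have hsing : ∀ w t : Fin n, (Pi.single w (1 : ℤ) : Fin n → ℤ) t = if t = w then 1 else 0 := by
    intro w t
    rw [Pi.single_apply]
  have haP1 : ∀ t, |aP t| ≤ 1 := by
    intro t
    rw [haP, Pi.add_apply, hsing, hsing]
    split_ifs with e1 e2
    · exact absurd (e1.symm.trans e2) huv
    · simp
    · simp
    · simp
  have haM1 : ∀ t, |aM t| ≤ 1 := by
    intro t
    rw [haM, Pi.sub_apply, hsing, hsing]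
    split_ifs <;> simp
  have hvP : vP I n = List.ofFn aP := by
    unfold vP
    rw [tab_eq_ofFn]
    congr 1
    funext j
    rw [h0, h1, getD_ofFn, getD_ofFn, dif_pos j.2, dif_pos j.2, bZ_decide, bZ_decide, haP,
      Pi.add_apply, hsing, hsing]
  have hvM : vM I n = List.ofFn aM := by
    unfold vM
    rw [tab_eq_ofFn]
    congr 1
    funext j
    rw [h0, h1, getD_ofFn, getD_ofFn, dif_pos j.2, dif_pos j.2, bZ_decide, bZ_decide, haM,
      Pi.sub_apply, hsing, hsing]
  obtain ⟨p1, p2⟩ := kL_spec hI hA hA1 haP1
  obtain ⟨q1, q2⟩ := kL_spec hI hA hA1 haM1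
  have hppos : 0 < (suppF A aP).card := by
    refine card_suppF_pos hA ?_
    intro h
    have := congrFun h u
    rw [haP, Pi.add_apply, hsing, hsing, if_pos rfl, if_neg huv] at this
    simp at this
  unfold decPG
  rw [hn, hvP, hvM, p1]
  have hx : ∀ (a : Fin n → ℤ) (i : Fin (suppF A a).card),
      (castM A).charpoly.IsRoot ((suppF A a).orderEmbOfFin rfl i) := by
    intro a i
    exact isRoot_of_mem_specSupport (mem_suppF.1 ((suppF A a).orderEmbOfFin_mem rfl i))
  have hxn : ∀ (a : Fin n → ℤ) (i : Fin (suppF A a).card),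
      |(suppF A a).orderEmbOfFin rfl i| ≤ n := by
    intro a i
    exact abs_le_of_mem_specSupport hA1 ((suppF A a).orderEmbOfFin_mem rfl i)
  have hxt : ∀ (a : Fin n → ℤ) (i : Fin (suppF A a).card),
      TotallyReal ((suppF A a).orderEmbOfFin rfl i) := by
    intro a i
    exact totallyReal_of_root hA (hx a i)
  rw [finC_spec hA hA1 (x := (suppF A aP).orderEmbOfFin rfl) (y := (suppF A aM).orderEmbOfFin rfl)
    (hx aP) (hx aM) (hxn aP) (hxn aM) (hxt aP) (hxt aM)]
  · rw [PGST_iff_phaseSet, ← phaseSet_iff_relCond, ← range_suppF, ← range_suppF,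
      hAdef, castM_adjMatrix]
    have e1 : castV aP = Pi.single u 1 + Pi.single v 1 := by
      funext t
      simp only [castV, haP, Pi.add_apply, Pi.single_apply]
      push_cast
      rfl
    have e2 : castV aM = Pi.single u 1 - Pi.single v 1 := by
      funext t
      simp only [castV, haM, Pi.sub_apply, Pi.single_apply]
      push_cast
      rfl
    rw [e1, e2]
  · rw [List.length_append, p1, q1]
  · omega
  · intro i
    rw [List.getD_append _ _ _ _ (by rw [p1]; exact i.2)]
    exact p2 i
  · intro i
    rw [List.getD_append_right _ _ _ _ (by rw [p1]; omega), p1, Nat.add_sub_cancel_left]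
    exact q2 i

/-- Turning the code of a bit into the bit. -/
def postP : Prog :=
  .ite .v isT (.seq (.pop .v) (.seq (.pop .v) (.seq (.pop .v) (.push .v true)))) skip

theorem run_postP (b : Bool) : RunLe postP (st (cd b) [] [] []) (st [b] [] [] []) 5 := by
  cases b with
  | true =>
    have e : cd true = [true, false, false] := rfl
    rw [e]
    have h3 := RunLe.pop .v (st [true, false, false] [] [] [])
    simp only [st_v, update_v, List.tail_cons] at h3
    have h4 := RunLe.pop .v (st [false, false] [] [] [])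
    simp only [st_v, update_v, List.tail_cons] at h4
    have h5 := RunLe.pop .v (st [false] [] [] [])
    simp only [st_v, update_v, List.tail_cons] at h5
    have h6 := RunLe.push .v true (st [] [] [] [])
    simp only [st_v, update_v] at h6
    exact RunLe.iteT (k := .v) (t := isT) (q := skip) (by simp)
      (RunLe.seq h3 (RunLe.seq h4 (RunLe.seq h5 h6)))
  | false =>
    have e : cd false = [false] := rfl
    rw [e]
    have h := RunLe.iteF (k := .v) (t := isT) (S := st [false] [] [] [])
      (p := (.seq (.pop .v) (.seq (.pop .v) (.seq (.pop .v) (.push .v true))))) (by simp)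
      (run_skip [false])
    exact h.mono (by norm_num)

/-- Polynomial-time Boolean functions are computable by machines in polynomial time. -/
theorem toTM2_bool {α β : Type} [Enc α] {f : α → Bool} (hf : PT f) {ea : β → List Bool}
    (rep : β → α) (hea : ∀ b, ea b = cd (rep b)) {g : β → Bool} (hg : ∀ b, g b = f (rep b)) :
    Nonempty (Turing.TM2ComputableInPolyTime ea Computability.encodeBool g) := by
  obtain ⟨p, P, hp⟩ := hf
  refine toTM2 (.seq p postP) (P + 5) fun b => ?_
  have h1 := hp (rep b) []
  rw [List.append_nil, List.append_nil] at h1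
  obtain ⟨m, hm, hrun⟩ := RunLe.seq h1 (run_postP (f (rep b)))
  refine ⟨m, ?_, ?_⟩
  · rw [hea, length_cd]
    simpa using hm
  · rw [only_eq, only_eq, hea, hg]
    exact hrun

end Cx

end Pool.Agent.H79
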