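import Pool.Agent.H79.Alg.Support

/-!
Small integer kernel vectors with odd weight.
-/

open Matrix Polynomial

namespace Pool.Agent.H79

section proj

variable {ι κ : Type*} [Fintype ι] [DecidableEq ι] [Fintype κ]

theorem abs_entry_le {Q : Matrix ι ι ℝ} (hQ : Q * Qᵀ = 1) {μ : ι → ℝ} {B : ℝ} (hB0 : 0 ≤ B)
    (hB : ∀ i, |μ i| ≤ B) (a b : ι) : |(Q * Matrix.diagonal μ * Qᵀ) a b| ≤ B := by
  have h1 : (Q * Matrix.diagonal μ * Qᵀ) a b = ∑ i, Q a i * μ i * Q b i := by
    rw [Matrix.mul_apply]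
    refine Finset.sum_congr rfl fun i _ => ?_
    rw [Matrix.mul_diagonal, Matrix.transpose_apply]
  rw [h1]
  have h2 : ∀ i, |Q a i * μ i * Q b i| ≤ B * ((Q a i ^ 2 + Q b i ^ 2) / 2) := by
    intro i
    rw [abs_mul, abs_mul]
    have h3 : |Q a i| * |Q b i| ≤ (Q a i ^ 2 + Q b i ^ 2) / 2 := by
      have := sq_nonneg (|Q a i| - |Q b i|)
      nlinarith [sq_abs (Q a i), sq_abs (Q b i)]
    calc |Q a i| * |μ i| * |Q b i| = |μ i| * (|Q a i| * |Q b i|) := by ring
      _ ≤ B * ((Q a i ^ 2 + Q b i ^ 2) / 2) :=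
          mul_le_mul (hB i) h3 (by positivity) hB0
  calc |∑ i, Q a i * μ i * Q b i| ≤ ∑ i, |Q a i * μ i * Q b i| := Finset.abs_sum_le_sum_abs _ _
    _ ≤ ∑ i, B * ((Q a i ^ 2 + Q b i ^ 2) / 2) := Finset.sum_le_sum fun i _ => h2 i
    _ = B * ((∑ i, Q a i ^ 2 + ∑ i, Q b i ^ 2) / 2) := by
        rw [← Finset.mul_sum, ← Finset.sum_add_distrib, Finset.sum_div]
    _ = B := by rw [sum_sq_row hQ, sum_sq_row hQ]; ring

theorem abs_le_of_real_root {B : Matrix ι ι ℝ} {K : ℝ} (hB : ∀ i j, |B i j| ≤ K) {z : ℝ}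
    (hz : B.charpoly.IsRoot z) : |z| ≤ Fintype.card ι * K := by
  rw [Polynomial.IsRoot, Matrix.eval_charpoly, ← Matrix.exists_mulVec_eq_zero_iff] at hz
  obtain ⟨y, hy0, hy⟩ := hz
  rw [Matrix.sub_mulVec, sub_eq_zero] at hy
  have hne : (Finset.univ : Finset ι).Nonempty := by
    by_contra hemp
    rw [Finset.not_nonempty_iff_eq_empty, Finset.univ_eq_empty_iff] at hemp
    exact hy0 (funext fun i => (hemp.false i).elim)
  obtain ⟨i, -, hi⟩ := Finset.exists_max_image Finset.univ (fun i => |y i|) hne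
  have hyi : 0 < |y i| := by
    rw [abs_pos]
    intro h0
    apply hy0
    funext j
    have := hi j (Finset.mem_univ j)
    rw [h0, abs_zero] at this
    exact abs_nonpos_iff.1 this
  have h2 := congrFun hy i
  have h3 : (Matrix.scalar ι z *ᵥ y) i = z * y i := by
    rw [Matrix.scalar_apply, Matrix.mulVec_diagonal]
  rw [h3] at h2
  have h4 : |z| * |y i| ≤ Fintype.card ι * K * |y i| := by
    rw [← abs_mul, h2]
    unfold Matrix.mulVec dotProduct
    calc |∑ j, B i j * y j| ≤ ∑ j, |B i j * y j| := Finset.abs_sum_le_sum_abs _ _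
      _ ≤ ∑ _j : ι, K * |y i| := by
          refine Finset.sum_le_sum fun j _ => ?_
          rw [abs_mul]
          exact mul_le_mul (hB i j) (hi j (Finset.mem_univ j)) (abs_nonneg _)
            ((abs_nonneg _).trans (hB i j))
      _ = Fintype.card ι * K * |y i| := by simp [mul_assoc]
  exact le_of_mul_le_mul_right h4 hyi

/-- A small integer multiple of the projection to the kernel. -/
theorem ker_proj (M : Matrix κ ι ℤ) {K : ℝ} (hK : ∀ i j, |(castM (Mᵀ * M)) i j| ≤ K)
    (hK1 : 1 ≤ Fintype.card ι * K) :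
    ∃ (P : Matrix ι ι ℤ) (q0 : ℤ), q0 ≠ 0 ∧ M * P = 0 ∧ (∀ v, M *ᵥ v = 0 → P *ᵥ v = q0 • v) ∧
      ∀ i j, |(castM P) i j| ≤ (Fintype.card ι * K) ^ Fintype.card ι := by
  classical
  set N : Matrix ι ι ℤ := Mᵀ * M with hN
  have hNs : N.IsSymm := by
    rw [Matrix.IsSymm, hN, Matrix.transpose_mul, Matrix.transpose_transpose]
  obtain ⟨Q, lam, hQ, hQ', hspec⟩ := exists_spectral _ (castM_symm hNs)
  have hchar := charpoly_eq_prod hQ' hspec
  have hlam : ∀ i, |lam i| ≤ Fintype.card ι * K := by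
    intro i
    apply abs_le_of_real_root hK
    rw [hchar, Polynomial.IsRoot, eval_prod]
    apply Finset.prod_eq_zero (Finset.mem_univ i)
    simp
  set c := N.charpoly with hc
  have hcm : c.map (Int.castRingHom ℝ) = ∏ i, (X - C (lam i)) := by
    rw [hc, ← castM_charpoly, hchar]
  set Z := Finset.univ.filter (fun i => lam i = 0) with hZ
  set W := Finset.univ.filter (fun i => ¬ lam i = 0) with hW
  have hsplit : ∏ i, (X - C (lam i)) = X ^ Z.card * ∏ i ∈ W, (X - C (lam i)) := by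
    rw [← Finset.prod_filter_mul_prod_filter_not Finset.univ (fun i => lam i = 0)]
    congr 1
    rw [← Finset.prod_const]
    refine Finset.prod_congr rfl fun i hi => ?_
    rw [(Finset.mem_filter.1 hi).2, C_0, sub_zero]
  have hdvd : X ^ Z.card ∣ c := by
    rw [X_pow_dvd_iff]
    intro d hd
    have h1 : ((c.coeff d : ℤ) : ℝ) = (c.map (Int.castRingHom ℝ)).coeff d := by
      rw [coeff_map, eq_intCast]
    have h2 : (c.map (Int.castRingHom ℝ)).coeff d = 0 := by
      rw [hcm, hsplit]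
      exact (X_pow_dvd_iff.1 (Dvd.intro _ rfl)) d hd
    rw [h2] at h1
    exact_mod_cast h1
  obtain ⟨q, hq⟩ := hdvd
  have hqm : q.map (Int.castRingHom ℝ) = ∏ i ∈ W, (X - C (lam i)) := by
    have h1 : (X : ℝ[X]) ^ Z.card * q.map (Int.castRingHom ℝ) =
        X ^ Z.card * ∏ i ∈ W, (X - C (lam i)) := by
      rw [← hsplit, ← hcm, hq, Polynomial.map_mul, Polynomial.map_pow, Polynomial.map_X]
    exact mul_left_cancel₀ (pow_ne_zero _ X_ne_zero) h1
  set q0 := q.coeff 0 with hq0
  have hq0r : (q0 : ℝ) = ∏ i ∈ W, (-(lam i)) := by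
    have h1 : (q0 : ℝ) = (q.map (Int.castRingHom ℝ)).eval 0 := by
      rw [← coeff_zero_eq_eval_zero, coeff_map, eq_intCast]
    rw [h1, hqm, eval_prod]
    exact Finset.prod_congr rfl fun i _ => by simp
  have hq0ne : q0 ≠ 0 := by
    intro h0
    rw [h0, Int.cast_zero] at hq0r
    obtain ⟨i, hi, hi0⟩ := Finset.prod_eq_zero_iff.1 hq0r.symm
    exact (Finset.mem_filter.1 hi).2 (neg_eq_zero.1 hi0)
  have hq0le : |(q0 : ℝ)| ≤ (Fintype.card ι * K) ^ Fintype.card ι := by
    rw [hq0r, Finset.abs_prod]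
    calc ∏ i ∈ W, |(-(lam i))| ≤ ∏ _i ∈ W, (Fintype.card ι * K) := by
          refine Finset.prod_le_prod (fun i _ => abs_nonneg _) fun i _ => ?_
          rw [abs_neg]; exact hlam i
      _ = (Fintype.card ι * K) ^ W.card := by rw [Finset.prod_const]
      _ ≤ (Fintype.card ι * K) ^ Fintype.card ι :=
          pow_le_pow_right₀ hK1 (Finset.card_le_univ _)
  have hqlam : ∀ i, (q.map (Int.castRingHom ℝ)).eval (lam i) = if lam i = 0 then (q0 : ℝ) else 0 := by
    intro i
    split_ifs with hi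
    · rw [hi, ← coeff_zero_eq_eval_zero, coeff_map, eq_intCast]
    · rw [hqm, eval_prod]
      exact Finset.prod_eq_zero (Finset.mem_filter.2 ⟨Finset.mem_univ i, hi⟩) (by simp)
  have hcast : ∀ f : ℤ[X], castM (aeval N f) =
      Q * Matrix.diagonal (fun i => (f.map (Int.castRingHom ℝ)).eval (lam i)) * Qᵀ := by
    intro f
    rw [← aeval_spectral hQ hQ', ← hspec]
    have h1 : castM (aeval N f) = (RingHom.mapMatrix (m := ι) (Int.castRingHom ℝ)) (aeval N f) := rfl
    rw [h1, aeval_def, hom_eval₂, aeval_def, eval₂_map]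
    congr 1
    exact RingHom.ext_int _ _
  set P := aeval N q with hP
  have hNP : N * P = 0 := by
    have h1 : N * P = aeval N (X * q) := by rw [map_mul, aeval_X]
    rw [h1]
    have h2 : castM (aeval N (X * q)) = 0 := by
      rw [hcast]
      have h3 : (fun i => ((X * q).map (Int.castRingHom ℝ)).eval (lam i)) = fun _ => (0 : ℝ) := by
        funext i
        rw [Polynomial.map_mul, Polynomial.map_X, eval_mul, eval_X, hqlam]
        split_ifs with hi
        · rw [hi, zero_mul]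
        · rw [mul_zero]
      rw [h3]
      simp
    ext i j
    have := congrFun (congrFun h2 i) j
    unfold castM at this
    rw [Matrix.map_apply, Matrix.zero_apply] at this
    rw [Matrix.zero_apply]
    exact_mod_cast this
  have hker : ∀ v : ι → ℤ, N *ᵥ v = 0 → M *ᵥ v = 0 := by
    intro v hv
    rw [← dotProduct_self_eq_zero]
    have h1 : (M *ᵥ v) ⬝ᵥ (M *ᵥ v) = v ⬝ᵥ (N *ᵥ v) := by
      rw [hN, ← Matrix.mulVec_mulVec, Matrix.dotProduct_mulVec v Mᵀ, Matrix.vecMul_transpose]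
    rw [h1, hv, dotProduct_zero]
  refine ⟨P, q0, hq0ne, ?_, ?_, ?_⟩
  · ext i j
    have h1 : N *ᵥ (P.col j) = 0 := by
      funext a
      exact congrFun (congrFun hNP a) j
    exact congrFun (hker _ h1) i
  · intro v hv
    have hNv : N *ᵥ v = 0 := by
      rw [hN, ← Matrix.mulVec_mulVec, hv, Matrix.mulVec_zero]
    have h1 : P = aeval N q.divX * N + q0 • (1 : Matrix ι ι ℤ) := by
      rw [hP]
      conv_lhs => rw [← divX_mul_X_add q]
      rw [map_add, map_mul, aeval_X, aeval_C, ← hq0, Algebra.algebraMap_eq_smul_one]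
    rw [h1, Matrix.add_mulVec, ← Matrix.mulVec_mulVec, hNv, Matrix.mulVec_zero, zero_add,
      Matrix.smul_mulVec, Matrix.one_mulVec]
  · intro i j
    rw [hP, hcast]
    refine abs_entry_le hQ (pow_nonneg (by linarith) _) (fun i => ?_) i j
    rw [hqlam]
    split_ifs
    · exact hq0le
    · rw [abs_zero]; exact pow_nonneg (by linarith) _

end proj

/-- Precision exponent for kernels. -/
def kap (r c₀ a : ℕ) : ℕ := 2 * r + (r + c₀ + 2 * a) * r + 1

/-- An integer kernel vector of odd weight can be chosen small. -/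
theorem odd_kernel {r c₀ a : ℕ} {m : ℕ → ℕ → ℤ} {w : ℕ → ℤ}
    (hm : ∀ i < r, ∀ t < c₀, |m i t| ≤ 2 ^ a) (hr : 0 < r)
    (h : ∃ h : ℕ → ℤ, (∀ t < c₀, ∑ i ∈ Finset.range r, h i * m i t = 0) ∧
        ¬ Even (∑ i ∈ Finset.range r, w i * h i)) :
    ∃ h : ℕ → ℤ, (∀ t < c₀, ∑ i ∈ Finset.range r, h i * m i t = 0) ∧
      ¬ Even (∑ i ∈ Finset.range r, w i * h i) ∧
      2 ^ r * ∑ i ∈ Finset.range r, h i ^ 2 < 2 ^ (2 * kap r c₀ a) := by
  classical
  obtain ⟨v, hv1, hv2⟩ := h
  set M : Matrix (Fin c₀) (Fin r) ℤ := Matrix.of fun t i => m i t with hM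
  have hMv : ∀ u : ℕ → ℤ, M *ᵥ (fun i : Fin r => u i) = 0 ↔
      ∀ t < c₀, ∑ i ∈ Finset.range r, u i * m i t = 0 := by
    intro u
    have h1 : ∀ t : Fin c₀, (M *ᵥ (fun i : Fin r => u i)) t =
        ∑ i ∈ Finset.range r, u i * m i t := by
      intro t
      rw [Finset.sum_range, Matrix.mulVec, dotProduct]
      exact Finset.sum_congr rfl fun i _ => mul_comm _ _
    constructor
    · intro h t ht
      rw [← h1 ⟨t, ht⟩, h, Pi.zero_apply]
    · intro h
      funext t
      rw [h1, h t t.2, Pi.zero_apply]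
  set g := r + c₀ + 2 * a with hg
  set K : ℝ := 2 ^ (c₀ + 2 * a) with hKdef
  have hK : ∀ i j, |(castM (Mᵀ * M)) i j| ≤ K := by
    intro i j
    unfold castM
    rw [Matrix.map_apply]
    have h1 : |(Mᵀ * M) i j| ≤ 2 ^ (c₀ + 2 * a) := by
      rw [Matrix.mul_apply]
      calc |∑ t, Mᵀ i t * M t j| ≤ ∑ t, |Mᵀ i t * M t j| := Finset.abs_sum_le_sum_abs _ _
        _ ≤ ∑ _t : Fin c₀, (2 : ℤ) ^ (2 * a) := by
            refine Finset.sum_le_sum fun t _ => ?_
            rw [abs_mul, two_mul a, pow_add]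
            exact mul_le_mul (hm i i.2 t t.2) (hm j j.2 t t.2) (abs_nonneg _) (by positivity)
        _ = c₀ * 2 ^ (2 * a) := by simp
        _ ≤ 2 ^ c₀ * 2 ^ (2 * a) := by
            refine mul_le_mul_of_nonneg_right ?_ (by positivity)
            exact_mod_cast Nat.lt_two_pow_self.le
        _ = 2 ^ (c₀ + 2 * a) := by rw [pow_add]
    rw [hKdef]
    exact_mod_cast h1
  have hrK : (r : ℝ) * K ≤ 2 ^ g := by
    have : (r : ℝ) ≤ 2 ^ r := by exact_mod_cast Nat.lt_two_pow_self.le
    calc (r : ℝ) * K ≤ 2 ^ r * K := mul_le_mul_of_nonneg_right this (by positivity)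
      _ = 2 ^ g := by rw [hKdef, hg, ← pow_add]; congr 1; ring
  have hK1 : (1 : ℝ) ≤ K := one_le_pow₀ (by norm_num)
  have hrK1 : (1 : ℝ) ≤ (r : ℝ) * K := by
    have : (1 : ℝ) ≤ r := by exact_mod_cast hr
    nlinarith
  obtain ⟨P, q0, hq0, hMP, hproj, hPb⟩ := ker_proj M hK (by rw [Fintype.card_fin]; exact hrK1)
  rw [Fintype.card_fin] at hPb
  have hPz : ∀ i j, |P i j| ≤ 2 ^ (g * r) := by
    intro i j
    have h1 : |(castM P) i j| ≤ 2 ^ (g * r) := by
      refine (hPb i j).trans ?_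
      rw [pow_mul]
      exact pow_le_pow_left₀ (by linarith) hrK r
    unfold castM at h1
    rw [Matrix.map_apply] at h1
    exact_mod_cast h1
  -- extend to functions on the natural numbers
  set ext : (Fin r → ℤ) → ℕ → ℤ := fun u i => if hi : i < r then u ⟨i, hi⟩ else 0 with hext
  have hext1 : ∀ u : Fin r → ℤ, (fun i : Fin r => ext u i) = u := by
    intro u; funext i; simp [hext]
  have hwt : ∀ u : ℕ → ℤ, ∑ i ∈ Finset.range r, w i * u i = ∑ i : Fin r, w i * u i := fun u =>
    Finset.sum_range _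
  have hbound : ∀ u : ℕ → ℤ, (∀ i < r, |u i| ≤ r * 2 ^ (g * r)) →
      2 ^ r * ∑ i ∈ Finset.range r, u i ^ 2 < 2 ^ (2 * kap r c₀ a) := by
    intro u hu
    have hr2 : (r : ℤ) ≤ 2 ^ r := by exact_mod_cast Nat.lt_two_pow_self.le
    have hu2 : ∀ i < r, u i ^ 2 ≤ 2 ^ (2 * r + 2 * (g * r)) := by
      intro i hi
      have h1 : |u i| ≤ 2 ^ (r + g * r) := by
        refine (hu i hi).trans ?_
        rw [pow_add]
        exact mul_le_mul_of_nonneg_right hr2 (by positivity)
      rw [← sq_abs, show 2 * r + 2 * (g * r) = (r + g * r) * 2 by ring, pow_mul]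
      exact pow_le_pow_left₀ (abs_nonneg _) h1 2
    have h3 : ∑ i ∈ Finset.range r, u i ^ 2 ≤ 2 ^ r * 2 ^ (2 * r + 2 * (g * r)) := by
      calc _ ≤ ∑ _i ∈ Finset.range r, (2 : ℤ) ^ (2 * r + 2 * (g * r)) :=
            Finset.sum_le_sum fun i hi => hu2 i (Finset.mem_range.1 hi)
        _ = r * 2 ^ (2 * r + 2 * (g * r)) := by simp
        _ ≤ _ := mul_le_mul_of_nonneg_right hr2 (by positivity)
    calc 2 ^ r * ∑ i ∈ Finset.range r, u i ^ 2
        ≤ 2 ^ r * (2 ^ r * 2 ^ (2 * r + 2 * (g * r))) :=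
          mul_le_mul_of_nonneg_left h3 (by positivity)
      _ = 2 ^ (4 * r + 2 * (g * r)) := by
          rw [← pow_add, ← pow_add]; congr 1; ring
      _ < 2 ^ (2 * kap r c₀ a) := by
          apply pow_lt_pow_right₀ (by norm_num)
          unfold kap
          rw [← hg]
          nlinarith
  by_cases hodd : ∃ j : Fin r, ¬ Even (∑ i : Fin r, w i * P i j)
  · obtain ⟨j, hj⟩ := hodd
    have hcol : ∀ i : Fin r, ext (P.col j) i = P i j := fun i => congrFun (hext1 (P.col j)) i
    refine ⟨ext (P.col j), ?_, ?_, ?_⟩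
    · rw [← hMv, hext1]
      funext t
      exact congrFun (congrFun hMP t) j
    · rw [hwt]
      simp only [hcol]
      exact hj
    · apply hbound
      intro i hi
      have : ext (P.col j) i = P ⟨i, hi⟩ j := hcol ⟨i, hi⟩
      rw [this]
      have h1 := hPz ⟨i, hi⟩ j
      have h2 : (1 : ℤ) ≤ r := by exact_mod_cast hr
      have h3 : (0 : ℤ) < 2 ^ (g * r) := by positivity
      nlinarith
  · push Not at hodd
    have hv3 : P *ᵥ (fun i : Fin r => v i) = q0 • (fun i : Fin r => v i) :=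
      hproj _ ((hMv v).2 hv1)
    set av : Fin r → ℤ := fun j => v j / q0 with hav
    set bv : Fin r → ℤ := fun j => v j % q0 with hbv
    have hab : ∀ j : Fin r, v j = q0 * av j + bv j := fun j => (Int.mul_ediv_add_emod _ _).symm
    set v' : Fin r → ℤ := fun i => v i - (P *ᵥ av) i with hv'
    have hv'2 : ∀ i, q0 * v' i = (P *ᵥ bv) i := by
      intro i
      have h1 : (P *ᵥ (fun i : Fin r => v i)) i = q0 * (P *ᵥ av) i + (P *ᵥ bv) i := by
        have : (fun i : Fin r => v i) = q0 • av + bv := by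
          funext j
          rw [Pi.add_apply, Pi.smul_apply, smul_eq_mul]
          exact hab j
        rw [this, Matrix.mulVec_add, Matrix.mulVec_smul]
        rfl
      rw [hv3] at h1
      simp only [Pi.smul_apply, smul_eq_mul] at h1
      rw [hv']
      simp only
      rw [mul_sub, h1]
      ring
    refine ⟨ext v', ?_, ?_, ?_⟩
    · rw [← hMv, hext1]
      have h1 : v' = (fun i : Fin r => v i) - P *ᵥ av := rfl
      rw [h1, Matrix.mulVec_sub, (hMv v).2 hv1, Matrix.mulVec_mulVec, hMP, Matrix.zero_mulVec,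
        sub_zero]
    · rw [hwt]
      have h0 : ∀ i : Fin r, ext v' i = v' i := fun i => congrFun (hext1 _) i
      simp only [h0]
      have h1 : ∑ i : Fin r, w i * v' i = ∑ i : Fin r, w i * v i -
          ∑ j : Fin r, av j * ∑ i : Fin r, w i * P i j := by
        rw [hv']
        simp only [mul_sub, Finset.sum_sub_distrib]
        congr 1
        simp only [Matrix.mulVec, dotProduct, Finset.mul_sum]
        rw [Finset.sum_comm]
        exact Finset.sum_congr rfl fun i _ => Finset.sum_congr rfl fun j _ => by ring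
      rw [h1]
      rw [hwt] at hv2
      intro heven
      apply hv2
      have h2 : Even (∑ j : Fin r, av j * ∑ i : Fin r, w i * P i j) :=
        Finset.even_sum _ fun j _ => (hodd j).mul_left _
      have := heven.add h2
      rwa [sub_add_cancel] at this
    · apply hbound
      intro i hi
      have h0 : ext v' i = v' ⟨i, hi⟩ := by simp [hext, hi]
      rw [h0]
      have hq0' : 0 < |q0| := abs_pos.2 hq0
      have h1 : |q0| * |v' ⟨i, hi⟩| ≤ |q0| * (r * 2 ^ (g * r)) := by
        rw [← abs_mul, hv'2]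
        simp only [Matrix.mulVec, dotProduct]
        calc |∑ j, P ⟨i, hi⟩ j * bv j| ≤ ∑ j, |P ⟨i, hi⟩ j * bv j| :=
              Finset.abs_sum_le_sum_abs _ _
          _ ≤ ∑ _j : Fin r, 2 ^ (g * r) * |q0| := by
              refine Finset.sum_le_sum fun j _ => ?_
              rw [abs_mul]
              refine mul_le_mul (hPz _ _) ?_ (abs_nonneg _) (by positivity)
              rw [abs_of_nonneg (Int.emod_nonneg _ hq0)]
              exact (Int.emod_lt_abs _ hq0).le
          _ = |q0| * (r * 2 ^ (g * r)) := by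
              simp; ring
      exact le_of_mul_le_mul_left h1 hq0'

end Pool.Agent.H79
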