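import Pool.Agent.H79.Alg.Relation

/-!
Products of two eigenvalues: minimal polynomials, gaps, recognition of the normalised trace.
-/

open Matrix Polynomial
open scoped Kronecker

namespace Pool.Agent.H79

variable {n : ℕ}

section gap

variable {ι : Type*} [Fintype ι] [DecidableEq ι]

/-- Real eigenvalues of a symmetric integer matrix, and the gap for values of polynomials. -/
theorem gap {B : Matrix ι ι ℤ} (hB : B.IsSymm) {α : ℝ} (hα : (castM B).charpoly.IsRoot α)
    (f : ℤ[X]) {H : ℝ} (hH1 : 1 ≤ H)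
    (hH : ∀ θ : ℝ, (castM B).charpoly.IsRoot θ → |(f.map (Int.castRingHom ℝ)).eval θ| ≤ H)
    (hf : (f.map (Int.castRingHom ℝ)).eval α ≠ 0) :
    1 ≤ |(f.map (Int.castRingHom ℝ)).eval α| * H ^ Fintype.card ι := by
  classical
  obtain ⟨Q, lam, hQ, hQ', hspec⟩ := exists_spectral _ (castM_symm hB)
  have hchar := charpoly_eq_prod hQ' hspec
  set F : ℝ[X] := f.map (Int.castRingHom ℝ) with hF
  have hfB : castM (aeval B f) = Q * Matrix.diagonal (fun i => F.eval (lam i)) * Qᵀ := by
    rw [← aeval_spectral hQ hQ', ← hspec]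
    have h1 : castM (aeval B f) = (RingHom.mapMatrix (m := ι) (Int.castRingHom ℝ)) (aeval B f) := rfl
    rw [h1, aeval_def, hom_eval₂, hF, aeval_def, eval₂_map]
    congr 1
    exact RingHom.ext_int _ _
  have hchar2 : (castM (aeval B f)).charpoly = ∏ i, (X - C (F.eval (lam i))) := by
    rw [hfB]
    exact charpoly_eq_prod hQ' rfl
  rw [castM_charpoly] at hchar2
  set c := (aeval B f).charpoly with hc
  -- split the product
  set Z := Finset.univ.filter (fun i => F.eval (lam i) = 0) with hZ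
  set W := Finset.univ.filter (fun i => ¬ F.eval (lam i) = 0) with hW
  have hsplit : ∏ i, (X - C (F.eval (lam i))) = X ^ Z.card * ∏ i ∈ W, (X - C (F.eval (lam i))) := by
    rw [← Finset.prod_filter_mul_prod_filter_not Finset.univ (fun i => F.eval (lam i) = 0)]
    congr 1
    rw [← Finset.prod_const]
    refine Finset.prod_congr rfl fun i hi => ?_
    rw [(Finset.mem_filter.1 hi).2, C_0, sub_zero]
  have hcoeff : ((c.coeff Z.card : ℤ) : ℝ) = ∏ i ∈ W, (-(F.eval (lam i))) := by
    have h1 : ((c.coeff Z.card : ℤ) : ℝ) = (c.map (Int.castRingHom ℝ)).coeff Z.card := by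
      rw [coeff_map, eq_intCast]
    rw [h1, hchar2, hsplit]
    have h2 := coeff_X_pow_mul (∏ i ∈ W, (X - C (F.eval (lam i)))) Z.card 0
    rw [zero_add] at h2
    rw [h2, coeff_zero_eq_eval_zero, eval_prod]
    refine Finset.prod_congr rfl fun i _ => ?_
    simp
  have hne : ∏ i ∈ W, (-(F.eval (lam i))) ≠ 0 := by
    rw [Finset.prod_ne_zero_iff]
    intro i hi
    exact neg_ne_zero.2 (Finset.mem_filter.1 hi).2
  have hge : (1 : ℝ) ≤ |∏ i ∈ W, (-(F.eval (lam i)))| := by
    rw [← hcoeff] at hne ⊢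
    have : c.coeff Z.card ≠ 0 := by exact_mod_cast hne
    have h1 := Int.one_le_abs this
    exact_mod_cast h1
  -- locate `α`
  have hroot : ∃ j, lam j = α := by
    rw [hchar, Polynomial.IsRoot, eval_prod, Finset.prod_eq_zero_iff] at hα
    obtain ⟨j, _, hj⟩ := hα
    simp only [eval_sub, eval_X, eval_C] at hj
    exact ⟨j, (sub_eq_zero.1 hj).symm⟩
  obtain ⟨j, hj⟩ := hroot
  have hjW : j ∈ W := Finset.mem_filter.2 ⟨Finset.mem_univ _, by rw [hj]; exact hf⟩
  have hlam : ∀ i, |F.eval (lam i)| ≤ H := by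
    intro i
    apply hH
    rw [hchar, Polynomial.IsRoot, eval_prod]
    apply Finset.prod_eq_zero (Finset.mem_univ i)
    simp
  rw [Finset.abs_prod, ← Finset.mul_prod_erase _ _ hjW, abs_neg, hj] at hge
  have h3 : ∏ i ∈ W.erase j, |(-(F.eval (lam i)))| ≤ H ^ Fintype.card ι := by
    calc ∏ i ∈ W.erase j, |(-(F.eval (lam i)))| ≤ ∏ _i ∈ W.erase j, H := by
          refine Finset.prod_le_prod (fun i _ => abs_nonneg _) fun i _ => ?_
          rw [abs_neg]; exact hlam i
      _ = H ^ (W.erase j).card := by rw [Finset.prod_const]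
      _ ≤ H ^ Fintype.card ι := pow_le_pow_right₀ hH1 (Finset.card_le_univ _)
  calc (1 : ℝ) ≤ |F.eval α| * ∏ i ∈ W.erase j, |(-(F.eval (lam i)))| := hge
    _ ≤ |F.eval α| * H ^ Fintype.card ι := mul_le_mul_of_nonneg_left h3 (abs_nonneg _)

/-- Complex eigenvalues of a matrix with small entries. -/
theorem norm_le_of_root {B : Matrix ι ι ℤ} (hB1 : ∀ i j, |B i j| ≤ 1) {z : ℂ}
    (hz : (B.charpoly.map (Int.castRingHom ℂ)).IsRoot z) : ‖z‖ ≤ Fintype.card ι := by
  have h1 : B.charpoly.map (Int.castRingHom ℂ) = (B.map (Int.castRingHom ℂ)).charpoly :=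
    (Matrix.charpoly_map B (Int.castRingHom ℂ)).symm
  rw [h1, Polynomial.IsRoot, Matrix.eval_charpoly, ← Matrix.exists_mulVec_eq_zero_iff] at hz
  obtain ⟨y, hy0, hy⟩ := hz
  rw [Matrix.sub_mulVec, sub_eq_zero] at hy
  have hne : (Finset.univ : Finset ι).Nonempty := by
    by_contra hemp
    rw [Finset.not_nonempty_iff_eq_empty, Finset.univ_eq_empty_iff] at hemp
    exact hy0 (funext fun i => (hemp.false i).elim)
  obtain ⟨i, -, hi⟩ := Finset.exists_max_image Finset.univ (fun i => ‖y i‖) hne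
  have hyi : 0 < ‖y i‖ := by
    rw [norm_pos_iff]
    intro h0
    apply hy0
    funext j
    have := hi j (Finset.mem_univ j)
    rw [h0, norm_zero] at this
    exact norm_le_zero_iff.1 this
  have h2 := congrFun hy i
  have h3 : (Matrix.scalar ι z *ᵥ y) i = z * y i := by
    rw [Matrix.scalar_apply, Matrix.mulVec_diagonal]
  rw [h3] at h2
  have h4 : ‖z‖ * ‖y i‖ ≤ Fintype.card ι * ‖y i‖ := by
    rw [← norm_mul, h2]
    unfold Matrix.mulVec dotProduct
    calc ‖∑ j, (B.map (Int.castRingHom ℂ)) i j * y j‖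
        ≤ ∑ j, ‖(B.map (Int.castRingHom ℂ)) i j * y j‖ := norm_sum_le _ _
      _ ≤ ∑ _j : ι, ‖y i‖ := by
          refine Finset.sum_le_sum fun j _ => ?_
          rw [norm_mul]
          have a1 : ‖(B.map (Int.castRingHom ℂ)) i j‖ ≤ 1 := by
            rw [Matrix.map_apply, eq_intCast, Complex.norm_intCast]
            exact_mod_cast hB1 i j
          have a2 := hi j (Finset.mem_univ j)
          calc ‖(B.map (Int.castRingHom ℂ)) i j‖ * ‖y j‖ ≤ 1 * ‖y i‖ :=
                mul_le_mul a1 a2 (norm_nonneg _) zero_le_one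
            _ = ‖y i‖ := one_mul _
      _ = Fintype.card ι * ‖y i‖ := by simp
  exact le_of_mul_le_mul_right h4 hyi

end gap

/-- Coefficient bound for monic integer polynomials with bounded complex roots. -/
theorem coeff_boundC {p : ℤ[X]} (hp : p.Monic) {k : ℕ} {D : ℕ}
    (hroots : ∀ θ ∈ (p.map (Int.castRingHom ℂ)).roots, ‖θ‖ ≤ 2 ^ k) (hD : p.natDegree ≤ D)
    (i : ℕ) : |p.coeff i| ≤ 2 ^ (k * D + D) := by
  have h0 : ((p.map (Int.castRingHom ℚ)).map (algebraMap ℚ ℂ)) = p.map (Int.castRingHom ℂ) := by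
    rw [Polynomial.map_map]; congr 1
  have h1 := coeff_bdd_of_roots_le (B := 2 ^ k) (d := D) (algebraMap ℚ ℂ)
    (p := p.map (Int.castRingHom ℚ)) (hp.map _) (IsAlgClosed.splits _)
    (by rw [hp.natDegree_map]; exact hD) (by
      intro z hz
      rw [h0] at hz
      exact hroots z hz) i
  rw [h0, coeff_map, eq_intCast, Complex.norm_intCast] at h1
  have h2 : max ((2 : ℝ) ^ k) 1 = 2 ^ k := max_eq_left (one_le_pow₀ (by norm_num))
  rw [h2] at h1
  have h3 : ((D.choose (D / 2) : ℕ) : ℝ) ≤ 2 ^ D := by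
    exact_mod_cast Nat.choose_le_two_pow D (D / 2)
  have h4 : |((p.coeff i : ℤ) : ℝ)| ≤ 2 ^ (k * D + D) := by
    rw [pow_add, pow_mul]
    exact h1.trans (mul_le_mul_of_nonneg_left h3 (by positivity))
  exact_mod_cast h4

theorem kron_symm {A : Matrix (Fin n) (Fin n) ℤ} (hA : A.IsSymm) : (A ⊗ₖ A).IsSymm := by
  ext ⟨i, j⟩ ⟨k, l⟩
  rw [Matrix.transpose_apply, Matrix.kroneckerMap_apply, Matrix.kroneckerMap_apply]
  exact congrArg₂ (· * ·) (hA.apply _ _) (hA.apply _ _)

theorem kron_le {A : Matrix (Fin n) (Fin n) ℤ} (hA : ∀ i j, |A i j| ≤ 1) :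
    ∀ i j, |(A ⊗ₖ A) i j| ≤ 1 := by
  rintro ⟨i, j⟩ ⟨k, l⟩
  rw [Matrix.kroneckerMap_apply, abs_mul]
  exact mul_le_one₀ (hA _ _) (abs_nonneg _) (hA _ _)

/-- Products of eigenvalues are eigenvalues of the Kronecker square. -/
theorem kron_root {A : Matrix (Fin n) (Fin n) ℤ} {x y : ℝ}
    (hx : (castM A).charpoly.IsRoot x) (hy : (castM A).charpoly.IsRoot y) :
    (castM (A ⊗ₖ A)).charpoly.IsRoot (x * y) := by
  rw [Polynomial.IsRoot, Matrix.eval_charpoly, ← Matrix.exists_mulVec_eq_zero_iff] at hx hy ⊢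
  obtain ⟨v, hv0, hv⟩ := hx
  obtain ⟨w, hw0, hw⟩ := hy
  rw [Matrix.sub_mulVec, sub_eq_zero] at hv hw
  have hv' : ∀ i, ∑ j, castM A i j * v j = x * v i := by
    intro i
    have := congrFun hv i
    rw [Matrix.scalar_apply, Matrix.mulVec_diagonal] at this
    exact this.symm
  have hw' : ∀ i, ∑ j, castM A i j * w j = y * w i := by
    intro i
    have := congrFun hw i
    rw [Matrix.scalar_apply, Matrix.mulVec_diagonal] at this
    exact this.symm
  refine ⟨fun p => v p.1 * w p.2, ?_, ?_⟩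
  · obtain ⟨i, hi⟩ := Function.ne_iff.1 hv0
    obtain ⟨j, hj⟩ := Function.ne_iff.1 hw0
    intro h0
    have := congrFun h0 (i, j)
    exact (mul_ne_zero hi hj) this
  · rw [Matrix.sub_mulVec, sub_eq_zero]
    funext ⟨i, j⟩
    rw [Matrix.scalar_apply, Matrix.mulVec_diagonal]
    simp only [Matrix.mulVec, dotProduct]
    rw [Fintype.sum_prod_type]
    have h1 : ∀ k l, castM (A ⊗ₖ A) (i, j) (k, l) * (v k * w l) =
        (castM A i k * v k) * (castM A j l * w l) := by
      intro k l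
      simp only [castM, Matrix.map_apply, Matrix.kroneckerMap_apply]
      push_cast
      ring
    simp only [h1]
    rw [← Finset.sum_mul_sum, hv', hw']
    ring

/-- Data about the minimal polynomial of a product of eigenvalues. -/
theorem minpoly_facts {A : Matrix (Fin n) (Fin n) ℤ} (hA1 : ∀ i j, |A i j| ≤ 1) {x y : ℝ}
    (hx : (castM A).charpoly.IsRoot x) (hy : (castM A).charpoly.IsRoot y) :
    IsIntegral ℤ (x * y) ∧ (minpoly ℤ (x * y)).natDegree ≤ n * n ∧
      ∀ i, |(minpoly ℤ (x * y)).coeff i| ≤ 2 ^ (2 * n * (n * n) + n * n) := by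
  have h1 := kron_root hx hy
  set B := A ⊗ₖ A with hB
  have h2 : aeval (x * y) B.charpoly = 0 := by
    rw [castM_charpoly] at h1
    rw [aeval_def, ← eval_map]
    exact h1
  have hint : IsIntegral ℤ (x * y) := ⟨B.charpoly, Matrix.charpoly_monic B, h2⟩
  have hdvd : minpoly ℤ (x * y) ∣ B.charpoly := minpoly.isIntegrallyClosed_dvd hint h2
  have hcard : Fintype.card (Fin n × Fin n) = n * n := by simp
  have hdeg : (minpoly ℤ (x * y)).natDegree ≤ n * n := by
    have := Polynomial.natDegree_le_of_dvd hdvd (Matrix.charpoly_monic B).ne_zero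
    rwa [Matrix.charpoly_natDegree_eq_dim, hcard] at this
  refine ⟨hint, hdeg, fun i => coeff_boundC (minpoly.monic hint) ?_ hdeg i⟩
  intro θ hθ
  have h3 : (B.charpoly.map (Int.castRingHom ℂ)).IsRoot θ := by
    have h4 := isRoot_of_mem_roots hθ
    exact h4.dvd (Polynomial.map_dvd (Int.castRingHom ℂ) hdvd)
  have h4 := norm_le_of_root (kron_le hA1) h3
  rw [hcard] at h4
  refine h4.trans ?_
  rw [mul_comm 2 n, pow_mul]
  have h5 : ((n : ℕ) : ℝ) ≤ 2 ^ n := by exact_mod_cast Nat.lt_two_pow_self.le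
  have h6 : (0 : ℝ) ≤ n := by positivity
  push_cast
  nlinarith

end Pool.Agent.H79
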