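import Pool.Agent.H79.Alg.Recog
import Pool.Agent.H79.Alg.OddKernel

/-!
The decision procedure as a polynomial-time function on lists of lists of bits.
-/

namespace Pool.Agent.H79

/-- Scaled normalised trace, read off from a multiple of the minimal polynomial. -/
def trc (F : ℤ) (L : List ℤ) : ℤ :=
  (-(F * L.getD (L.length - 2) 0)) / (((L.length - 1 : ℕ) : ℤ) * L.getD (L.length - 1) 0)

/-- Exponent bounding the entries of the matrix of scaled traces. -/
def a5 (n : ℕ) : ℕ := n * n * (n * n) + hh3 n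

end Pool.Agent.H79

namespace Pool.Agent.H79.Cx

open Function

variable {α : Type} [Enc α]

@[fun_prop]
theorem PT.tau1 {n : α → ℕ} (hn : PT n) : PT (fun x => H79.tau1 (n x)) := by
  unfold H79.tau1; fun_prop

@[fun_prop]
theorem PT.hh3 {n : α → ℕ} (hn : PT n) : PT (fun x => H79.hh3 (n x)) := by
  unfold H79.hh3; fun_prop

@[fun_prop]
theorem PT.tau3 {n : α → ℕ} (hn : PT n) : PT (fun x => H79.tau3 (n x)) := by
  unfold H79.tau3; fun_prop

@[fun_prop]
theorem PT.eta3 {n : α → ℕ} (hn : PT n) : PT (fun x => H79.eta3 (n x)) := by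
  unfold H79.eta3; fun_prop

@[fun_prop]
theorem PT.M3 {n : α → ℕ} (hn : PT n) : PT (fun x => H79.M3 (n x)) := by
  unfold H79.M3; fun_prop

@[fun_prop]
theorem PT.m3 {n : α → ℕ} (hn : PT n) : PT (fun x => H79.m3 (n x)) := by
  unfold H79.m3; fun_prop

@[fun_prop]
theorem PT.e3 {n : α → ℕ} (hn : PT n) : PT (fun x => H79.e3 (n x)) := by
  unfold H79.e3; fun_prop

@[fun_prop]
theorem PT.a5 {n : α → ℕ} (hn : PT n) : PT (fun x => H79.a5 (n x)) := by
  unfold H79.a5; fun_prop

@[fun_prop]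
theorem PT.kap {r c a : α → ℕ} (hr : PT r) (hc : PT c) (ha : PT a) :
    PT (fun x => H79.kap (r x) (c x) (a x)) := by
  unfold H79.kap; fun_prop

@[fun_prop]
theorem PT.w3 {n i : α → ℕ} {k : α → ℤ} (hn : PT n) (hk : PT k) (hi : PT i) :
    PT (fun x => H79.w3 (n x) (k x) (i x)) := by
  unfold H79.w3; fun_prop

@[fun_prop]
theorem PT.trc {F : α → ℤ} {L : α → List ℤ} (hF : PT F) (hL : PT L) :
    PT (fun x => H79.trc (F x) (L x)) := by
  unfold H79.trc; fun_prop

@[fun_prop]
theorem PT.sgnZ {a : α → ℤ} (ha : PT a) : PT (fun x => H79.sgnZ (a x)) := by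
  unfold H79.sgnZ; fun_prop

@[fun_prop]
theorem PT.svStep {a : α → ℤ} {s : α → ℤ × ℕ} (ha : PT a) (hs : PT s) :
    PT (fun x => H79.svStep (a x) (s x)) := by
  unfold H79.svStep; fun_prop

/-- Factorial. -/
def factZ (n : ℕ) : ℤ := loopC (4 * (n * n + 1) + 5) (fun u acc => acc * ((u + 1 : ℕ) : ℤ)) n 1

@[fun_prop]
theorem PT.factZ {n : α → ℕ} (hn : PT n) : PT (fun x => factZ (n x)) := by
  unfold Cx.factZ
  refine PT.loopC (f := fun _ u acc => acc * ((u + 1 : ℕ) : ℤ)) ?_ ?_ hn ?_ <;> fun_prop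

/-- Binomial coefficient. -/
def chZ (i t : ℕ) : ℤ := if t ≤ i then factZ i / (factZ t * factZ (i - t)) else 0

@[fun_prop]
theorem PT.chZ {i t : α → ℕ} (hi : PT i) (ht : PT t) : PT (fun x => chZ (i x) (t x)) := by
  unfold Cx.chZ; fun_prop

/-- Coefficient of the shifted polynomial. -/
def tcC (h : List ℤ) (d m : ℕ) (k : ℤ) (t : ℕ) : ℤ :=
  ∑ i ∈ Finset.range (d + 1), h.getD i 0 * 2 ^ (m * (d - i)) * chZ i t * k ^ (i - t)

@[fun_prop]
theorem PT.tcC {h : α → List ℤ} {d m t : α → ℕ} {k : α → ℤ} (hh : PT h) (hd : PT d) (hm : PT m)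
    (hk : PT k) (ht : PT t) : PT (fun x => tcC (h x) (d x) (m x) (k x) (t x)) := by
  unfold Cx.tcC; fun_prop

/-- Number of sign changes of the shifted polynomial. -/
def vcC (h : List ℤ) (d m : ℕ) (k : ℤ) : ℕ :=
  (loopC (2 * d + 20) (fun t st => H79.svStep (tcC h d m k t) st) (d + 1) (0, 0)).2

@[fun_prop]
theorem PT.vcC {h : α → List ℤ} {d m : α → ℕ} {k : α → ℤ} (hh : PT h) (hd : PT d) (hm : PT m)
    (hk : PT k) : PT (fun x => vcC (h x) (d x) (m x) (k x)) := by
  unfold Cx.vcC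
  refine PT.snd' (PT.loopC
    (f := fun x t st => H79.svStep (Cx.tcC (h x) (d x) (m x) (k x) t) st) ?_ ?_ ?_ ?_) <;> fun_prop

/-- Root approximation. -/
def rsC (h : List ℤ) (d m i s : ℕ) : ℤ :=
  loopC (4 * s + 13) (fun u k => if d - i ≤ vcC h d m (k + 2 ^ (s - u)) then k + 2 ^ (s - u) else k)
    (s + 1) (-2 ^ s)

@[fun_prop]
theorem PT.rsC {h : α → List ℤ} {d m i s : α → ℕ} (hh : PT h) (hd : PT d) (hm : PT m)
    (hi : PT i) (hs : PT s) : PT (fun x => rsC (h x) (d x) (m x) (i x) (s x)) := by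
  unfold Cx.rsC
  refine PT.loopC (f := fun x u k => if d x - i x ≤ Cx.vcC (h x) (d x) (m x) (k + 2 ^ (s x - u))
    then k + 2 ^ (s x - u) else k) ?_ ?_ ?_ ?_ <;> fun_prop

/-- Entry of the adjacency matrix. -/
def aZ (I : List (List Bool)) (i j : ℕ) : ℤ :=
  if (I.getD (i + 2) []).getD j false = true then 1 else 0

@[fun_prop]
theorem PT.aZ {I : α → List (List Bool)} {i j : α → ℕ} (hI : PT I) (hi : PT i) (hj : PT j) :
    PT (fun x => aZ (I x) (i x) (j x)) := by
  unfold Cx.aZ; fun_prop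

/-- Matrix times vector. -/
def stepK (I : List (List Bool)) (n : ℕ) (v : List ℤ) : List ℤ :=
  tab n fun s => ∑ t ∈ Finset.range n, aZ I s t * v.getD t 0

@[fun_prop]
theorem PT.stepK {I : α → List (List Bool)} {n : α → ℕ} {v : α → List ℤ} (hI : PT I) (hn : PT n)
    (hv : PT v) : PT (fun x => stepK (I x) (n x) (v x)) := by
  unfold Cx.stepK; fun_prop

/-- Powers of the matrix applied to a vector. -/
def kryC (I : List (List Bool)) (n : ℕ) (a : List ℤ) (i : ℕ) : List ℤ :=
  loopC (1 + n * (10 + 4 * (n * n))) (fun _ v => stepK I n v) i a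

@[fun_prop]
theorem PT.kryC {I : α → List (List Bool)} {n i : α → ℕ} {a : α → List ℤ} (hI : PT I) (hn : PT n)
    (ha : PT a) (hi : PT i) : PT (fun x => kryC (I x) (n x) (a x) (i x)) := by
  unfold Cx.kryC
  refine PT.loopC (f := fun x _ v => Cx.stepK (I x) (n x) v) ?_ ?_ ?_ ?_ <;> fun_prop

/-- Relation among the powers. -/
def hL (I : List (List Bool)) (n : ℕ) (a : List ℤ) : List ℤ :=
  relOut (H79.tau1 n + n * n + 1) n (H79.tau1 n) (n + 1)
    (tab (n + 1) fun i => tab n fun t => 2 ^ H79.tau1 n * (kryC I n a i).getD t 0)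

@[fun_prop]
theorem PT.hL {I : α → List (List Bool)} {n : α → ℕ} {a : α → List ℤ} (hI : PT I) (hn : PT n)
    (ha : PT a) : PT (fun x => hL (I x) (n x) (a x)) := by
  unfold Cx.hL; fun_prop

/-- Approximations of the roots. -/
def kL (n : ℕ) (h : List ℤ) : List ℤ :=
  tab (h.length - 1) fun i => rsC h (h.length - 1) (H79.m3 n) i (H79.m3 n + n)

@[fun_prop]
theorem PT.kL {n : α → ℕ} {h : α → List ℤ} (hn : PT n) (hh : PT h) :
    PT (fun x => kL (n x) (h x)) := by
  unfold Cx.kL; fun_prop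

/-- The scaled normalised trace of a product. -/
def trcC (n : ℕ) (k : ℤ) : ℤ :=
  H79.trc (factZ (n * n)) (relOut (H79.e3 n) 1 (H79.tau3 n) (n * n + 1)
    (tab (n * n + 1) fun i => tab 1 fun _ => H79.w3 n k i))

@[fun_prop]
theorem PT.trcC {n : α → ℕ} {k : α → ℤ} (hn : PT n) (hk : PT k) :
    PT (fun x => trcC (n x) (k x)) := by
  unfold Cx.trcC; fun_prop

/-- The kernel parity test. -/
def finC (n d : ℕ) (ks : List ℤ) : Bool :=
  parTest (ks.length + 1) ks.length (tab ks.length fun i => if i < d then (0 : ℤ) else 1)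
    (blockRed (H79.kap ks.length (ks.length + 1) (H79.a5 n) + H79.a5 n) (ks.length + 1) ks.length
      (tab ks.length fun i => tab (ks.length + 1) fun t =>
        2 ^ H79.kap ks.length (ks.length + 1) (H79.a5 n) *
          (if t < ks.length then trcC n (ks.getD i 0 * ks.getD t 0) else 1)))

@[fun_prop]
theorem PT.finC {n d : α → ℕ} {ks : α → List ℤ} (hn : PT n) (hd : PT d) (hk : PT ks) :
    PT (fun x => finC (n x) (d x) (ks x)) := by
  unfold Cx.finC; fun_prop

/-- Indicator bit. -/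
def bZ (b : Bool) : ℤ := if b = true then 1 else 0

@[fun_prop]
theorem PT.bZ {b : α → Bool} (hb : PT b) : PT (fun x => bZ (b x)) := by
  unfold Cx.bZ; fun_prop

/-- Sum of the two indicator vectors. -/
def vP (I : List (List Bool)) (n : ℕ) : List ℤ :=
  tab n fun j => bZ ((I.getD 0 []).getD j false) + bZ ((I.getD 1 []).getD j false)

@[fun_prop]
theorem PT.vP {I : α → List (List Bool)} {n : α → ℕ} (hI : PT I) (hn : PT n) :
    PT (fun x => vP (I x) (n x)) := by
  unfold Cx.vP; fun_prop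

/-- Difference of the two indicator vectors. -/
def vM (I : List (List Bool)) (n : ℕ) : List ℤ :=
  tab n fun j => bZ ((I.getD 0 []).getD j false) - bZ ((I.getD 1 []).getD j false)

@[fun_prop]
theorem PT.vM {I : α → List (List Bool)} {n : α → ℕ} (hI : PT I) (hn : PT n) :
    PT (fun x => vM (I x) (n x)) := by
  unfold Cx.vM; fun_prop

/-- The decision procedure. -/
def decPG (I : List (List Bool)) : Bool :=
  finC (I.length - 2) (kL (I.length - 2) (hL I (I.length - 2) (vP I (I.length - 2)))).length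
    (kL (I.length - 2) (hL I (I.length - 2) (vP I (I.length - 2))) ++
      kL (I.length - 2) (hL I (I.length - 2) (vM I (I.length - 2))))

theorem PT.decPG : PT (fun I : List (List Bool) => decPG I) := by
  unfold Cx.decPG; fun_prop

end Pool.Agent.H79.Cx
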