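import Pool.Agent.H79.Alg.Pair
import Pool.Agent.H79.NormTrace

/-!
Recognition of the minimal polynomial of a product of two eigenvalues from approximations.
-/

open Matrix Polynomial
open scoped Kronecker

namespace Pool.Agent.H79

variable {n : ℕ}

/-- Exponent bounding the coefficients of the minimal polynomials. -/
def hh3 (n : ℕ) : ℕ := 2 * n * (n * n) + n * n

/-- Exponent of the threshold. -/
def tau3 (n : ℕ) : ℕ := 3 * (n * n) + 4 + 2 * hh3 n

/-- Exponent bounding values of short polynomials at conjugates. -/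
def eta3 (n : ℕ) : ℕ := n * n + tau3 n + 2 * n * (n * n)

/-- Scaling exponent. -/
def M3 (n : ℕ) : ℕ := eta3 n * (n * n) + tau3 n + n * n + 3

/-- Precision of the approximations. -/
def m3 (n : ℕ) : ℕ := M3 n + n * n + 2 * n * (n * n) + 2 * n

/-- Exponent bounding the entries. -/
def e3 (n : ℕ) : ℕ := M3 n + 2 * n * (n * n) + 2

/-- Approximate scaled powers. -/
def w3 (n : ℕ) (k : ℤ) (i : ℕ) : ℤ := (k ^ i * 2 ^ M3 n) / 2 ^ (2 * m3 n * i)

theorem pow_diff_le {a b R : ℝ} (hR : 1 ≤ R) (ha : |a| ≤ R) (hb : |b| ≤ R) (i : ℕ) :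
    |a ^ i - b ^ i| ≤ i * R ^ i * |a - b| := by
  induction i with
  | zero => simp
  | succ i ih =>
    have h1 : a ^ (i + 1) - b ^ (i + 1) = a * (a ^ i - b ^ i) + (a - b) * b ^ i := by ring
    rw [h1]
    have h2 : |a * (a ^ i - b ^ i)| ≤ R * (i * R ^ i * |a - b|) := by
      rw [abs_mul]; exact mul_le_mul ha ih (abs_nonneg _) (by linarith)
    have h3 : |(a - b) * b ^ i| ≤ |a - b| * R ^ (i + 1) := by
      rw [abs_mul, abs_pow]
      refine mul_le_mul_of_nonneg_left ?_ (abs_nonneg _)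
      calc |b| ^ i ≤ R ^ i := pow_le_pow_left₀ (abs_nonneg _) hb i
        _ ≤ R ^ (i + 1) := pow_le_pow_right₀ hR (by omega)
    calc _ ≤ _ := abs_add_le _ _
      _ ≤ R * (i * R ^ i * |a - b|) + |a - b| * R ^ (i + 1) := add_le_add h2 h3
      _ = _ := by push_cast; ring

theorem ediv_close (a : ℤ) {b : ℤ} (hb : 0 < b) : |((a / b : ℤ) : ℝ) - (a : ℝ) / b| ≤ 1 := by
  have hb' : (0 : ℝ) < b := by exact_mod_cast hb
  have h1 : b * (a / b) ≤ a := Int.mul_ediv_self_le hb.ne'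
  have h2 : a < b * (a / b) + b := Int.lt_mul_ediv_self_add hb
  have h1' : (b : ℝ) * ((a / b : ℤ) : ℝ) ≤ a := by exact_mod_cast h1
  have h2' : (a : ℝ) < b * ((a / b : ℤ) : ℝ) + b := by exact_mod_cast h2
  have h3 : (a : ℝ) / b * b = a := div_mul_cancel₀ _ hb'.ne'
  rw [abs_le]
  constructor
  · by_contra hc
    push Not at hc
    nlinarith
  · by_contra hc
    push Not at hc
    nlinarith

theorem natCast_le_pow (n : ℕ) : (n : ℝ) ≤ 2 ^ n := by
  exact_mod_cast Nat.lt_two_pow_self.le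

theorem prod_close {x y : ℝ} {m : ℕ} (hx : |x| ≤ n) (hy : |y| ≤ n) {k1 k2 : ℤ}
    (h1 : |(k1 : ℝ) - 2 ^ m * x| ≤ 1) (h2 : |(k2 : ℝ) - 2 ^ m * y| ≤ 1) :
    |((k1 * k2 : ℤ) : ℝ) / 2 ^ (2 * m) - x * y| * 2 ^ m ≤ 2 * n + 1 ∧
      |((k1 * k2 : ℤ) : ℝ) / 2 ^ (2 * m)| ≤ (n + 1) ^ 2 := by
  have hP : (1 : ℝ) ≤ 2 ^ m := one_le_pow₀ (by norm_num)
  set P : ℝ := 2 ^ m with hPdef
  have hP0 : 0 < P := by linarith
  have hPP : (2 : ℝ) ^ (2 * m) = P * P := by rw [two_mul, pow_add]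
  have hn0 : (0 : ℝ) ≤ n := Nat.cast_nonneg n
  have hk1 : |(k1 : ℝ)| ≤ P * (n + 1) := by
    calc |(k1 : ℝ)| = |((k1 : ℝ) - P * x) + P * x| := by ring_nf
      _ ≤ |(k1 : ℝ) - P * x| + |P * x| := abs_add_le _ _
      _ ≤ 1 + P * n := by
        refine add_le_add h1 ?_
        rw [abs_mul, abs_of_pos hP0]
        exact mul_le_mul_of_nonneg_left hx hP0.le
      _ ≤ P * (n + 1) := by nlinarith
  have hk2 : |(k2 : ℝ)| ≤ P * n + 1 := by
    calc |(k2 : ℝ)| = |((k2 : ℝ) - P * y) + P * y| := by ring_nf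
      _ ≤ |(k2 : ℝ) - P * y| + |P * y| := abs_add_le _ _
      _ ≤ 1 + P * n := by
        refine add_le_add h2 ?_
        rw [abs_mul, abs_of_pos hP0]
        exact mul_le_mul_of_nonneg_left hy hP0.le
      _ = P * n + 1 := by ring
  constructor
  · rw [hPP]
    have e1 : ((k1 * k2 : ℤ) : ℝ) / (P * P) - x * y =
        (((k1 : ℝ) - P * x) * k2 + P * x * (k2 - P * y)) / (P * P) := by
      push_cast; field_simp; ring
    rw [e1, abs_div, abs_of_pos (mul_pos hP0 hP0), div_mul_eq_mul_div, div_le_iff₀ (by positivity)]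
    have e2 : |((k1 : ℝ) - P * x) * k2 + P * x * (k2 - P * y)| ≤ P * (2 * n + 1) := by
      calc _ ≤ |((k1 : ℝ) - P * x) * k2| + |P * x * (k2 - P * y)| := abs_add_le _ _
        _ ≤ 1 * (P * n + 1) + (P * n) * 1 := by
          refine add_le_add ?_ ?_
          · rw [abs_mul]; exact mul_le_mul h1 hk2 (abs_nonneg _) zero_le_one
          · rw [abs_mul]
            refine mul_le_mul ?_ h2 (abs_nonneg _) (by positivity)
            rw [abs_mul, abs_of_pos hP0]
            exact mul_le_mul_of_nonneg_left hx hP0.le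
        _ ≤ P * (2 * n + 1) := by nlinarith
    calc _ ≤ P * (2 * n + 1) * P := mul_le_mul_of_nonneg_right e2 hP0.le
      _ = _ := by ring
  · rw [hPP, abs_div, abs_of_pos (mul_pos hP0 hP0), div_le_iff₀ (by positivity)]
    push_cast
    rw [abs_mul]
    have hk2' : |(k2 : ℝ)| ≤ P * (n + 1) := hk2.trans (by nlinarith)
    calc _ ≤ (P * (n + 1)) * (P * (n + 1)) :=
          mul_le_mul hk1 hk2' (abs_nonneg _) (by positivity)
      _ = _ := by ring

theorem w3_close {x y : ℝ} (hx : |x| ≤ n) (hy : |y| ≤ n) {k1 k2 : ℤ}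
    (h1 : |(k1 : ℝ) - 2 ^ m3 n * x| ≤ 1) (h2 : |(k2 : ℝ) - 2 ^ m3 n * y| ≤ 1) {i : ℕ}
    (hi : i ≤ n * n) : |(w3 n (k1 * k2) i : ℝ) - 2 ^ M3 n * (x * y) ^ i| ≤ 2 := by
  obtain ⟨g1, g2⟩ := prod_close hx hy h1 h2
  set β : ℝ := ((k1 * k2 : ℤ) : ℝ) / 2 ^ (2 * m3 n) with hβ
  have hn0 : (0 : ℝ) ≤ n := Nat.cast_nonneg n
  have hn1 : (n : ℝ) + 1 ≤ 2 ^ n := by exact_mod_cast (Nat.lt_two_pow_self : n < 2 ^ n)
  have hR : ((n : ℝ) + 1) ^ 2 ≤ 2 ^ (2 * n) := by
    rw [mul_comm 2 n, pow_mul]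
    exact pow_le_pow_left₀ (by positivity) hn1 2
  have hα : |x * y| ≤ 2 ^ (2 * n) := by
    rw [abs_mul]
    calc |x| * |y| ≤ n * n := mul_le_mul hx hy (abs_nonneg _) hn0
      _ ≤ ((n : ℝ) + 1) ^ 2 := by nlinarith
      _ ≤ _ := hR
  have hR1 : (1 : ℝ) ≤ 2 ^ (2 * n) := one_le_pow₀ (by norm_num)
  have g3 := pow_diff_le hR1 (g2.trans hR) hα i
  have g4 : |(w3 n (k1 * k2) i : ℝ) - 2 ^ M3 n * β ^ i| ≤ 1 := by
    have := ediv_close ((k1 * k2) ^ i * 2 ^ M3 n)
      (b := 2 ^ (2 * m3 n * i)) (by positivity)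
    have e1 : (((k1 * k2) ^ i * 2 ^ M3 n : ℤ) : ℝ) / ((2 ^ (2 * m3 n * i) : ℤ) : ℝ) =
        2 ^ M3 n * β ^ i := by
      rw [hβ, div_pow, ← pow_mul]
      push_cast
      ring
    rw [e1] at this
    exact this
  have g5 : 2 ^ M3 n * |β ^ i - (x * y) ^ i| ≤ 1 := by
    have hpow : (2 : ℝ) ^ m3 n = 2 ^ M3 n * (2 ^ (n * n) * 2 ^ (2 * n * (n * n)) * 2 ^ (2 * n)) := by
      unfold m3
      rw [← pow_add, ← pow_add, ← pow_add]
      congr 1
      ring
    have hQ : (0 : ℝ) < 2 ^ M3 n := by positivity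
    have hi1 : (i : ℝ) ≤ 2 ^ (n * n) := by
      have : (i : ℝ) ≤ ((n * n : ℕ) : ℝ) := by exact_mod_cast hi
      exact this.trans (natCast_le_pow _)
    have hi2 : ((2 : ℝ) ^ (2 * n)) ^ i ≤ 2 ^ (2 * n * (n * n)) := by
      rw [pow_mul 2 (2 * n) (n * n)]
      exact pow_le_pow_right₀ hR1 hi
    have hn2 : (2 : ℝ) * n + 1 ≤ 2 ^ (2 * n) := by nlinarith
    set T : ℝ := 2 ^ (n * n) * 2 ^ (2 * n * (n * n)) with hT
    have hT0 : 0 < T := by positivity
    have k1' : (i : ℝ) * (2 ^ (2 * n)) ^ i ≤ T :=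
      mul_le_mul hi1 hi2 (by positivity) (by positivity)
    have k2' : |β ^ i - (x * y) ^ i| ≤ T * |β - x * y| :=
      g3.trans (mul_le_mul_of_nonneg_right k1' (abs_nonneg _))
    have k3' : |β - x * y| * (2 ^ M3 n * T) ≤ 1 := by
      have k4 : |β - x * y| * (2 ^ M3 n * (T * 2 ^ (2 * n))) ≤ 2 ^ (2 * n) := by
        rw [hpow] at g1
        exact g1.trans hn2
      have k5 : (0 : ℝ) < 2 ^ (2 * n) := by positivity
      by_contra hc
      push Not at hc
      nlinarith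
    nlinarith
  calc |(w3 n (k1 * k2) i : ℝ) - 2 ^ M3 n * (x * y) ^ i|
      = |((w3 n (k1 * k2) i : ℝ) - 2 ^ M3 n * β ^ i) +
        2 ^ M3 n * (β ^ i - (x * y) ^ i)| := by ring_nf
    _ ≤ |(w3 n (k1 * k2) i : ℝ) - 2 ^ M3 n * β ^ i| +
        |2 ^ M3 n * (β ^ i - (x * y) ^ i)| := abs_add_le _ _
    _ ≤ 1 + 1 := by
        refine add_le_add g4 ?_
        rw [abs_mul, abs_of_pos (by positivity : (0 : ℝ) < 2 ^ M3 n)]
        exact g5
    _ = 2 := by norm_num

theorem w3_le {x y : ℝ} (hx : |x| ≤ n) (hy : |y| ≤ n) {k1 k2 : ℤ}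
    (h1 : |(k1 : ℝ) - 2 ^ m3 n * x| ≤ 1) (h2 : |(k2 : ℝ) - 2 ^ m3 n * y| ≤ 1) {i : ℕ}
    (hi : i ≤ n * n) : |w3 n (k1 * k2) i| ≤ 2 ^ e3 n := by
  have g1 := w3_close hx hy h1 h2 hi
  have hn0 : (0 : ℝ) ≤ n := Nat.cast_nonneg n
  have hn1 : (n : ℝ) ≤ 2 ^ n := natCast_le_pow n
  have hα : |x * y| ≤ 2 ^ (2 * n) := by
    rw [abs_mul, two_mul, pow_add]
    exact mul_le_mul (hx.trans hn1) (hy.trans hn1) (abs_nonneg _) (by positivity)
  have hpow : |x * y| ^ i ≤ 2 ^ (2 * n * (n * n)) := by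
    rw [pow_mul 2 (2 * n) (n * n)]
    calc |x * y| ^ i ≤ (2 ^ (2 * n)) ^ i := pow_le_pow_left₀ (abs_nonneg _) hα i
      _ ≤ _ := pow_le_pow_right₀ (one_le_pow₀ (by norm_num)) hi
  have g2 : |(w3 n (k1 * k2) i : ℝ)| ≤ 2 ^ e3 n := by
    have hpos : (1 : ℝ) ≤ 2 ^ M3 n * 2 ^ (2 * n * (n * n)) := by
      rw [← pow_add]; exact one_le_pow₀ (by norm_num)
    calc |(w3 n (k1 * k2) i : ℝ)|
        = |((w3 n (k1 * k2) i : ℝ) - 2 ^ M3 n * (x * y) ^ i) + 2 ^ M3 n * (x * y) ^ i| := by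
          ring_nf
      _ ≤ 2 + |2 ^ M3 n * (x * y) ^ i| := (abs_add_le _ _).trans (by linarith)
      _ ≤ 2 + 2 ^ M3 n * 2 ^ (2 * n * (n * n)) := by
          rw [abs_mul, abs_of_pos (by positivity : (0 : ℝ) < 2 ^ M3 n), abs_pow]
          exact add_le_add le_rfl (mul_le_mul_of_nonneg_left hpow (by positivity))
      _ ≤ 2 ^ M3 n * 2 ^ (2 * n * (n * n)) * 4 := by linarith
      _ = 2 ^ e3 n := by
          unfold e3
          rw [← pow_add, show (4 : ℝ) = 2 ^ 2 by norm_num, ← pow_add]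
  have g3 : ((|w3 n (k1 * k2) i| : ℤ) : ℝ) ≤ ((2 ^ e3 n : ℤ) : ℝ) := by
    push_cast
    exact g2
  exact_mod_cast g3

/-- Integer polynomial with given coefficients. -/
noncomputable def polZ (c : ℕ → ℤ) (m : ℕ) : ℤ[X] := ∑ i ∈ Finset.range m, C (c i) * X ^ i

theorem polZ_coeff (c : ℕ → ℤ) (m i : ℕ) : (polZ c m).coeff i = if i < m then c i else 0 := by
  unfold polZ
  rw [finsetSum_coeff]
  simp only [coeff_C_mul, coeff_X_pow, mul_ite, mul_one, mul_zero]
  rw [Finset.sum_ite_eq]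
  simp

theorem eval_polZ (c : ℕ → ℤ) (m : ℕ) (z : ℝ) :
    ((polZ c m).map (Int.castRingHom ℝ)).eval z = ∑ i ∈ Finset.range m, (c i : ℝ) * z ^ i := by
  unfold polZ
  rw [Polynomial.map_sum, eval_finsetSum]
  refine Finset.sum_congr rfl fun i _ => ?_
  simp

theorem abs_le_sq (z : ℤ) : |z| ≤ z ^ 2 := by
  rw [← sq_abs]
  rcases eq_or_ne z 0 with rfl | h
  · simp
  · have := Int.one_le_abs h
    nlinarith

theorem nrm_one (u : ℕ → ℕ → ℤ) (r : ℕ) (h : ℕ → ℤ) :
    LLL.nrm 1 u r h = (∑ i ∈ Finset.range r, h i * u i 0) ^ 2 + ∑ i ∈ Finset.range r, h i ^ 2 := by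
  unfold LLL.nrm
  simp

theorem succ_le_pow_real {r N : ℕ} (h : r ≤ N + 1) : (r : ℝ) ≤ 2 ^ N := by
  have h1 : r ≤ 2 ^ N := h.trans (Nat.lt_two_pow_self : N < 2 ^ N)
  exact_mod_cast h1

section recog

variable {A : Matrix (Fin n) (Fin n) ℤ} (hA : A.IsSymm) (hA1 : ∀ i j, |A i j| ≤ 1) {x y : ℝ}
  (hx : (castM A).charpoly.IsRoot x) (hy : (castM A).charpoly.IsRoot y)
  (hxn : |x| ≤ n) (hyn : |y| ≤ n) {k1 k2 : ℤ}
  (h1 : |(k1 : ℝ) - 2 ^ m3 n * x| ≤ 1) (h2 : |(k2 : ℝ) - 2 ^ m3 n * y| ≤ 1)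

include hA1 in
theorem real_root_le {θ : ℝ} (hθ : (castM (A ⊗ₖ A)).charpoly.IsRoot θ) : |θ| ≤ 2 ^ (2 * n) := by
  have h1 : ((A ⊗ₖ A).charpoly.map (Int.castRingHom ℂ)).IsRoot (θ : ℂ) := by
    have e1 : (A ⊗ₖ A).charpoly.map (Int.castRingHom ℂ) =
        ((A ⊗ₖ A).charpoly.map (Int.castRingHom ℝ)).map Complex.ofRealHom := by
      rw [Polynomial.map_map]; congr 1
    rw [e1, ← castM_charpoly]
    exact hθ.map (f := Complex.ofRealHom)
  have h2 := norm_le_of_root (kron_le hA1) h1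
  rw [Complex.norm_real, Real.norm_eq_abs] at h2
  refine h2.trans ?_
  have h3 : Fintype.card (Fin n × Fin n) = n * n := by simp
  rw [h3, mul_comm 2 n, pow_mul]
  have h5 : ((n : ℕ) : ℝ) ≤ 2 ^ n := natCast_le_pow n
  have h6 : (0 : ℝ) ≤ n := by positivity
  push_cast
  nlinarith

include hA hA1 hx hy hxn hyn h1 h2 in
theorem vanish_of_nrm_le {h : ℕ → ℤ} {r : ℕ} (hr : r ≤ n * n + 1)
    (hn : LLL.nrm 1 (fun i _ => w3 n (k1 * k2) i) r h ≤ 2 ^ tau3 n) :
    ((polZ h r).map (Int.castRingHom ℝ)).eval (x * y) = 0 := by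
  rw [nrm_one] at hn
  set E := ∑ i ∈ Finset.range r, h i * w3 n (k1 * k2) i with hE
  have hs0 : 0 ≤ ∑ i ∈ Finset.range r, h i ^ 2 := Finset.sum_nonneg fun _ _ => sq_nonneg _
  have hEb : |E| ≤ 2 ^ tau3 n := (abs_le_sq E).trans (by linarith)
  have hhb : ∀ i < r, |h i| ≤ 2 ^ tau3 n := by
    intro i hi
    have f1 := Finset.single_le_sum (f := fun i => h i ^ 2) (fun i _ => sq_nonneg _)
      (Finset.mem_range.2 hi)
    have f2 : 0 ≤ E ^ 2 := sq_nonneg _
    exact (abs_le_sq _).trans (by linarith)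
  have hEb' : |(E : ℝ)| ≤ 2 ^ tau3 n := by exact_mod_cast hEb
  have hhb' : ∀ i < r, |(h i : ℝ)| ≤ 2 ^ tau3 n := by
    intro i hi; exact_mod_cast hhb i hi
  have hT : (0 : ℝ) < 2 ^ tau3 n := by positivity
  -- the value at the product
  by_contra hne
  have hval : 2 ^ M3 n * |((polZ h r).map (Int.castRingHom ℝ)).eval (x * y)| ≤
      2 ^ (tau3 n + n * n + 2) := by
    rw [eval_polZ]
    have e1 : (2 : ℝ) ^ M3 n * ∑ i ∈ Finset.range r, (h i : ℝ) * (x * y) ^ i =
        E - ∑ i ∈ Finset.range r, (h i : ℝ) * (w3 n (k1 * k2) i - 2 ^ M3 n * (x * y) ^ i) := by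
      rw [hE]
      push_cast
      rw [← Finset.sum_sub_distrib, Finset.mul_sum]
      exact Finset.sum_congr rfl fun i _ => by ring
    have e2 : |∑ i ∈ Finset.range r, (h i : ℝ) * (w3 n (k1 * k2) i - 2 ^ M3 n * (x * y) ^ i)| ≤
        r * (2 ^ tau3 n * 2) := by
      refine (Finset.abs_sum_le_sum_abs _ _).trans ?_
      calc _ ≤ ∑ _i ∈ Finset.range r, ((2 : ℝ) ^ tau3 n * 2) := by
            refine Finset.sum_le_sum fun i hi => ?_
            have hi' := Finset.mem_range.1 hi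
            rw [abs_mul]
            exact mul_le_mul (hhb' i hi') (w3_close hxn hyn h1 h2 (by omega)) (abs_nonneg _)
              hT.le
        _ = _ := by rw [Finset.sum_const, Finset.card_range, nsmul_eq_mul]
    have e3 : (r : ℝ) ≤ 2 ^ (n * n) := succ_le_pow_real hr
    rw [← abs_of_pos (by positivity : (0 : ℝ) < 2 ^ M3 n), ← abs_mul, e1]
    have e4 : (1 : ℝ) ≤ 2 ^ (n * n) := one_le_pow₀ (by norm_num)
    calc |(E : ℝ) - _| ≤ |(E : ℝ)| + |∑ i ∈ Finset.range r,
          (h i : ℝ) * (w3 n (k1 * k2) i - 2 ^ M3 n * (x * y) ^ i)| := abs_sub _ _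
      _ ≤ 2 ^ tau3 n + 2 ^ (n * n) * (2 ^ tau3 n * 2) :=
          add_le_add hEb' (e2.trans (mul_le_mul_of_nonneg_right e3 (by positivity)))
      _ ≤ 2 ^ tau3 n * 2 ^ (n * n) * 4 := by nlinarith
      _ = 2 ^ (tau3 n + n * n + 2) := by
          rw [show (4 : ℝ) = 2 ^ 2 by norm_num, ← pow_add, ← pow_add]
  -- the gap
  have hgap := gap (kron_symm hA) (kron_root hx hy) (polZ h r) (H := 2 ^ eta3 n)
    (one_le_pow₀ (by norm_num)) (by
      intro θ hθ
      rw [eval_polZ]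
      have g1 := real_root_le hA1 hθ
      refine (Finset.abs_sum_le_sum_abs _ _).trans ?_
      calc _ ≤ ∑ _i ∈ Finset.range r, ((2 : ℝ) ^ tau3 n * 2 ^ (2 * n * (n * n))) := by
            refine Finset.sum_le_sum fun i hi => ?_
            have hi' := Finset.mem_range.1 hi
            rw [abs_mul, abs_pow]
            refine mul_le_mul (hhb' i hi') ?_ (by positivity) hT.le
            rw [pow_mul 2 (2 * n) (n * n)]
            calc |θ| ^ i ≤ (2 ^ (2 * n)) ^ i := pow_le_pow_left₀ (abs_nonneg _) g1 i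
              _ ≤ _ := pow_le_pow_right₀ (one_le_pow₀ (by norm_num)) (by omega)
        _ = r * (2 ^ tau3 n * 2 ^ (2 * n * (n * n))) := by
            rw [Finset.sum_const, Finset.card_range, nsmul_eq_mul]
        _ ≤ 2 ^ (n * n) * (2 ^ tau3 n * 2 ^ (2 * n * (n * n))) :=
            mul_le_mul_of_nonneg_right (succ_le_pow_real hr) (by positivity)
        _ = 2 ^ eta3 n := by
            unfold eta3
            rw [← pow_add, ← pow_add]
            congr 1
            ring) hne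
  rw [show Fintype.card (Fin n × Fin n) = n * n by simp, ← pow_mul] at hgap
  set v := |((polZ h r).map (Int.castRingHom ℝ)).eval (x * y)| with hv
  have hv0 : 0 ≤ v := abs_nonneg _
  have hM : (2 : ℝ) ^ M3 n = 2 ^ (eta3 n * (n * n)) * (2 ^ (tau3 n + n * n + 2) * 2) := by
    unfold M3
    rw [← pow_succ, ← pow_add]
    congr 1
    ring
  rw [hM] at hval
  have hp1 : (0 : ℝ) < 2 ^ (tau3 n + n * n + 2) := by positivity
  nlinarith

include hA hA1 hx hy hxn hyn h1 h2 in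
theorem recog {U : List (List ℤ)}
    (hU : ∀ i < n * n + 1, ∀ t < 1, Cx.ent U i t = w3 n (k1 * k2) i) :
    ∃ h : ℕ → ℤ, Cx.relOut (e3 n) 1 (tau3 n) (n * n + 1) U =
        Cx.tab ((minpoly ℤ (x * y)).natDegree + 1) h ∧
      h (minpoly ℤ (x * y)).natDegree ≠ 0 ∧
      ∀ i ≤ (minpoly ℤ (x * y)).natDegree,
        h i = h (minpoly ℤ (x * y)).natDegree * (minpoly ℤ (x * y)).coeff i := by
  obtain ⟨hint, hdeg, hcoef⟩ := minpoly_facts hA1 hx hy
  set q := minpoly ℤ (x * y) with hq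
  have hqm : q.Monic := minpoly.monic hint
  set s := q.natDegree with hs
  -- a vanishing polynomial is a multiple
  have hdvd : ∀ (h : ℕ → ℤ) (r : ℕ), r ≤ n * n + 1 → (∃ i < r, h i ≠ 0) →
      LLL.nrm 1 (fun i _ => w3 n (k1 * k2) i) r h ≤ 2 ^ tau3 n → polZ h r ≠ 0 ∧ q ∣ polZ h r := by
    intro h r hr hh hn
    refine ⟨?_, ?_⟩
    · obtain ⟨i, hi, hi0⟩ := hh
      intro h0
      have := congrArg (fun p => p.coeff i) h0
      simp only [polZ_coeff, if_pos hi, coeff_zero] at this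
      exact hi0 this
    · have := vanish_of_nrm_le hA hA1 hx hy hxn hyn h1 h2 hr hn
      refine minpoly.isIntegrallyClosed_dvd hint ?_
      rw [aeval_def, ← eval_map]
      exact this
  have hnd : ∀ (h : ℕ → ℤ) (r : ℕ), polZ h r ≠ 0 → (polZ h r).natDegree < r := by
    intro h r h0
    by_contra hc
    have : (polZ h r).coeff (polZ h r).natDegree ≠ 0 := leadingCoeff_ne_zero.2 h0
    rw [polZ_coeff, if_neg hc] at this
    exact this rfl
  obtain ⟨h, ha, hb, hc⟩ := LLL.relOut_spec (e := e3 n) (c₀ := 1) (τ := tau3 n)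
    (rmax := n * n + 1) (s := s) (u := fun i _ => w3 n (k1 * k2) i) (U := U) (by omega) hU
    (fun i hi _ _ => w3_le hxn hyn h1 h2 (by omega)) (by
      intro h r hr hh
      by_contra hcon
      rw [not_lt] at hcon
      obtain ⟨f1, f2⟩ := hdvd h r (by omega) hh hcon
      have f3 := Polynomial.natDegree_le_of_dvd f2 f1
      have f4 := hnd h r f1
      omega) (by
      refine ⟨fun i => q.coeff i, ⟨s, by omega, ?_⟩, ?_⟩
      · change q.coeff s ≠ 0
        rw [hs, hqm.coeff_natDegree]; exact one_ne_zero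
      · rw [nrm_one]
        set E := ∑ i ∈ Finset.range (s + 1), q.coeff i * w3 n (k1 * k2) i with hE
        have hpol : q.map (Int.castRingHom ℝ) =
            (polZ (fun i => q.coeff i) (s + 1)).map (Int.castRingHom ℝ) := by
          congr 1
          ext i
          rw [polZ_coeff]
          split_ifs with hi
          · rfl
          · exact coeff_eq_zero_of_natDegree_lt (by omega)
        have hroot : ∑ i ∈ Finset.range (s + 1), (q.coeff i : ℝ) * (x * y) ^ i = 0 := by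
          rw [← eval_polZ (fun i => q.coeff i), ← hpol]
          have := minpoly.aeval ℤ (x * y)
          rw [aeval_def, ← eval_map] at this
          exact this
        have hq2 : ∀ i, |(q.coeff i : ℝ)| ≤ 2 ^ hh3 n := by
          intro i
          have := hcoef i
          unfold hh3
          exact_mod_cast this
        have hsr : ((s + 1 : ℕ) : ℝ) ≤ 2 ^ (n * n) := succ_le_pow_real (by omega)
        have hEr : |(E : ℝ)| ≤ 2 ^ (n * n) * (2 ^ hh3 n * 2) := by
          have e1 : (E : ℝ) = ∑ i ∈ Finset.range (s + 1),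
              (q.coeff i : ℝ) * (w3 n (k1 * k2) i - 2 ^ M3 n * (x * y) ^ i) := by
            have e2 : ∑ i ∈ Finset.range (s + 1),
                (q.coeff i : ℝ) * (w3 n (k1 * k2) i - 2 ^ M3 n * (x * y) ^ i) =
                (E : ℝ) - 2 ^ M3 n * ∑ i ∈ Finset.range (s + 1),
                  (q.coeff i : ℝ) * (x * y) ^ i := by
              rw [hE]
              push_cast
              rw [Finset.mul_sum, ← Finset.sum_sub_distrib]
              exact Finset.sum_congr rfl fun i _ => by ring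
            rw [e2, hroot]; ring
          rw [e1]
          refine (Finset.abs_sum_le_sum_abs _ _).trans ?_
          calc _ ≤ ∑ _i ∈ Finset.range (s + 1), ((2 : ℝ) ^ hh3 n * 2) := by
                refine Finset.sum_le_sum fun i hi => ?_
                have hi' := Finset.mem_range.1 hi
                rw [abs_mul]
                exact mul_le_mul (hq2 i) (w3_close hxn hyn h1 h2 (by omega)) (abs_nonneg _)
                  (by positivity)
            _ = ((s + 1 : ℕ) : ℝ) * (2 ^ hh3 n * 2) := by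
                rw [Finset.sum_const, Finset.card_range, nsmul_eq_mul]
            _ ≤ _ := mul_le_mul_of_nonneg_right hsr (by positivity)
        have hEz : |E| ≤ 2 ^ (n * n + hh3 n + 1) := by
          have : ((|E| : ℤ) : ℝ) ≤ ((2 ^ (n * n + hh3 n + 1) : ℤ) : ℝ) := by
            push_cast
            refine hEr.trans (le_of_eq ?_)
            rw [pow_add, pow_add]; ring
          exact_mod_cast this
        have hE2 : E ^ 2 ≤ 2 ^ (2 * (n * n + hh3 n + 1)) := by
          rw [← sq_abs, mul_comm 2, pow_mul]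
          exact pow_le_pow_left₀ (abs_nonneg _) hEz 2
        have hsum : ∑ i ∈ Finset.range (s + 1), q.coeff i ^ 2 ≤
            2 ^ (n * n) * 2 ^ (2 * hh3 n) := by
          calc _ ≤ ∑ _i ∈ Finset.range (s + 1), (2 : ℤ) ^ (2 * hh3 n) := by
                refine Finset.sum_le_sum fun i _ => ?_
                rw [← sq_abs, mul_comm 2, pow_mul]
                have := hcoef i
                exact pow_le_pow_left₀ (abs_nonneg _) (by unfold hh3; exact this) 2
            _ = ((s + 1 : ℕ) : ℤ) * (2 : ℤ) ^ (2 * hh3 n) := by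
                rw [Finset.sum_const, Finset.card_range, nsmul_eq_mul]
            _ ≤ _ := by
                refine mul_le_mul_of_nonneg_right ?_ (by positivity)
                have : s + 1 ≤ 2 ^ (n * n) := by
                  have := (Nat.lt_two_pow_self : n * n < 2 ^ (n * n))
                  omega
                exact_mod_cast this
        have hp : (2 : ℤ) ^ (s + 1) ≤ 2 ^ (n * n + 1) := pow_le_pow_right₀ (by norm_num) (by omega)
        have hD1 : (1 : ℤ) ≤ 2 ^ (n * n) := one_le_pow₀ (by norm_num)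
        calc 2 ^ (s + 1) * (E ^ 2 + ∑ i ∈ Finset.range (s + 1), q.coeff i ^ 2)
            ≤ 2 ^ (n * n + 1) * (2 ^ (2 * (n * n + hh3 n + 1)) +
              2 ^ (n * n) * 2 ^ (2 * hh3 n)) := by
              refine mul_le_mul hp (add_le_add hE2 hsum) ?_ (by positivity)
              exact add_nonneg (sq_nonneg _) (Finset.sum_nonneg fun _ _ => sq_nonneg _)
          _ ≤ 2 ^ (n * n + 1) * (2 ^ (2 * (n * n + hh3 n + 1)) * 2) := by
              refine mul_le_mul_of_nonneg_left ?_ (by positivity)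
              have e5 : (2 : ℤ) ^ (n * n) * 2 ^ (2 * hh3 n) ≤ 2 ^ (2 * (n * n + hh3 n + 1)) := by
                rw [← pow_add]
                exact pow_le_pow_right₀ (by norm_num) (by omega)
              linarith
          _ = 2 ^ tau3 n := by
              unfold tau3
              rw [← pow_succ, ← pow_add]
              congr 1
              ring)
  refine ⟨h, ha, ?_⟩
  obtain ⟨f1, f2⟩ := hdvd h (s + 1) (by omega) hb hc
  obtain ⟨g, hg⟩ := f2
  have hg0 : g ≠ 0 := by rintro rfl; rw [mul_zero] at hg; exact f1 hg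
  have hgd : (polZ h (s + 1)).natDegree = s + g.natDegree := by
    rw [hg, hqm.natDegree_mul' hg0]
  have hgd1 := hnd h (s + 1) f1
  have hgd2 : g.natDegree = 0 := by omega
  obtain ⟨c, rfl⟩ := natDegree_eq_zero.1 hgd2
  have hc0 : c ≠ 0 := by rintro rfl; simp at hg0
  have hi : ∀ i ≤ s, h i = q.coeff i * c := by
    intro i hi
    have := congrArg (fun p => p.coeff i) hg
    simp only [polZ_coeff, if_pos (by omega : i < s + 1), coeff_mul_C] at this
    exact this
  have hsc : h s = c := by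
    rw [hi s le_rfl, hs, hqm.coeff_natDegree, one_mul]
  refine ⟨by rw [hsc]; exact hc0, fun i hi' => ?_⟩
  rw [hsc, hi i hi', mul_comm]

end recog

end Pool.Agent.H79
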