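import Pool.Agent.H79.Alg.Descartes

/-!
Counting and approximating the roots of real-rooted integer polynomials.
-/

open Polynomial

namespace Pool.Agent.H79

/-- Coefficients of the scaled and shifted polynomial. -/
def tcoef (h : ℕ → ℤ) (d m : ℕ) (k : ℤ) (t : ℕ) : ℤ :=
  ∑ i ∈ Finset.range (d + 1), h i * 2 ^ (m * (d - i)) * (i.choose t : ℤ) * k ^ (i - t)

/-- Sign variations of the scaled and shifted polynomial. -/
def vcount (h : ℕ → ℤ) (d m : ℕ) (k : ℤ) : ℕ :=
  (Cx.loop (fun t st => svStep (tcoef h d m k t) st) (d + 1) (0, 0)).2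

theorem scaled_eq (h : ℕ → ℤ) (m : ℕ) (S : Finset ℝ) {a : ℝ}
    (hh : polR h (S.card + 1) = C a * ∏ θ ∈ S, (X - C θ)) :
    ∑ i ∈ Finset.range (S.card + 1), C ((h i : ℝ) * 2 ^ (m * (S.card - i))) * X ^ i =
      C a * ∏ θ ∈ S, (X - C (2 ^ m * θ)) := by
  have h1 : ∑ i ∈ Finset.range (S.card + 1), C ((h i : ℝ) * 2 ^ (m * (S.card - i))) * X ^ i =
      C (2 ^ (m * S.card)) * (polR h (S.card + 1)).comp (C ((2 ^ m)⁻¹) * X) := by
    unfold polR
    rw [Polynomial.sum_comp, Finset.mul_sum]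
    refine Finset.sum_congr rfl fun i hi => ?_
    have hi' : i ≤ S.card := by have := Finset.mem_range.1 hi; omega
    rw [mul_comp, C_comp, X_pow_comp, mul_pow, ← C_pow, ← mul_assoc, ← mul_assoc, ← C_mul,
      ← C_mul]
    congr 2
    have h2 : (2 : ℝ) ^ (m * S.card) = 2 ^ (m * (S.card - i)) * (2 ^ m) ^ i := by
      rw [← pow_mul, ← pow_add, ← Nat.mul_add]
      congr 2
      omega
    rw [h2, inv_pow]
    field_simp
  rw [h1, hh, mul_comp, C_comp, prod_comp, ← mul_assoc, mul_comm (C (2 ^ (m * S.card))), mul_assoc]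
  congr 1
  rw [pow_mul, C_pow, ← Finset.prod_const, ← Finset.prod_mul_distrib]
  refine Finset.prod_congr rfl fun θ _ => ?_
  rw [sub_comp, X_comp, C_comp, mul_sub, ← mul_assoc, ← C_mul, ← C_mul,
    mul_inv_cancel₀ (by positivity), C_1, one_mul]

theorem polR_tcoef (h : ℕ → ℤ) (d m : ℕ) (k : ℤ) : polR (tcoef h d m k) (d + 1) =
    (∑ i ∈ Finset.range (d + 1), C ((h i : ℝ) * 2 ^ (m * (d - i))) * X ^ i).comp
      (X + C (k : ℝ)) := by
  ext t
  rw [polR_coeff, Polynomial.sum_comp, finsetSum_coeff]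
  have h1 : ∀ i, ((C ((h i : ℝ) * 2 ^ (m * (d - i))) * X ^ i).comp (X + C (k : ℝ))).coeff t =
      (h i : ℝ) * 2 ^ (m * (d - i)) * (i.choose t : ℝ) * (k : ℝ) ^ (i - t) := by
    intro i
    rw [mul_comp, C_comp, X_pow_comp, coeff_C_mul, coeff_X_add_C_pow]
    ring
  simp only [h1]
  split_ifs with ht
  · unfold tcoef
    push_cast
    rfl
  · symm
    apply Finset.sum_eq_zero
    intro i hi
    have := Finset.mem_range.1 hi
    rw [Nat.choose_eq_zero_of_lt (by omega)]
    simp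

theorem vcount_eq (h : ℕ → ℤ) (m : ℕ) (S : Finset ℝ) {a : ℝ} (ha : a ≠ 0)
    (hh : polR h (S.card + 1) = C a * ∏ θ ∈ S, (X - C θ)) (k : ℤ) :
    vcount h S.card m k = (S.filter fun θ => (k : ℝ) < 2 ^ m * θ).card := by
  unfold vcount
  rw [sv_inv]
  simp only
  rw [polR_tcoef, scaled_eq h m S hh, mul_comp, C_comp, prod_comp]
  have h1 : ∏ θ ∈ S, (X - C (2 ^ m * θ)).comp (X + C (k : ℝ)) =
      ((S.val.map fun θ : ℝ => 2 ^ m * θ - (k : ℝ)).map fun r => X - C r).prod := by
    rw [Multiset.map_map]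
    change _ = ∏ θ ∈ S, (X - C (2 ^ m * θ - (k : ℝ)))
    refine Finset.prod_congr rfl fun θ _ => ?_
    rw [sub_comp, X_comp, C_comp, C_sub]
    ring
  rw [h1, signVariations_eq_countP ha, Multiset.countP_map]
  change _ = Multiset.card (Multiset.filter _ S.val)
  congr 2
  funext θ
  rw [sub_pos]

/-- Binary search for an approximation of the `i`-th smallest root. -/
def rootSearch (V : ℤ → ℕ) (d i s : ℕ) : ℤ :=
  Cx.loop (fun u k => if d - i ≤ V (k + 2 ^ (s - u)) then k + 2 ^ (s - u) else k) (s + 1) (-2 ^ s)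

theorem rootSearch_inv {V : ℤ → ℕ} {d i s : ℕ} (h1 : d - i ≤ V (-2 ^ s)) (h2 : V (2 ^ s) < d - i) :
    ∀ u ≤ s + 1,
      let k := Cx.loop (fun u k => if d - i ≤ V (k + 2 ^ (s - u)) then k + 2 ^ (s - u) else k) u
        (-2 ^ s)
      d - i ≤ V k ∧ V (k + 2 ^ (s + 1 - u)) < d - i ∧
        |k| ≤ 2 ^ (s + 1) := by
  have key : ∀ u ≤ s + 1,
      let k := Cx.loop (fun u k => if d - i ≤ V (k + 2 ^ (s - u)) then k + 2 ^ (s - u) else k) u
        (-2 ^ s)
      d - i ≤ V k ∧ V (k + 2 ^ (s + 1 - u)) < d - i ∧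
        -2 ^ s ≤ k ∧ k ≤ 2 ^ s - 2 ^ (s + 1 - u) := by
    intro u
    induction u with
    | zero =>
      intro _
      simp only [Cx.loop, Nat.sub_zero]
      refine ⟨h1, ?_, le_rfl, ?_⟩
      · have : (-2 ^ s + 2 ^ (s + 1) : ℤ) = 2 ^ s := by rw [pow_succ]; ring
        rw [this]; exact h2
      · rw [pow_succ]; linarith
    | succ u ih =>
      intro hu
      obtain ⟨a1, a2, a3, a4⟩ := ih (by omega)
      simp only [Cx.loop]
      set k := Cx.loop (fun u k => if d - i ≤ V (k + 2 ^ (s - u)) then k + 2 ^ (s - u) else k) u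
        (-2 ^ s) with hk
      have e1 : s + 1 - (u + 1) = s - u := by omega
      have e2 : (2 : ℤ) ^ (s + 1 - u) = 2 ^ (s - u) + 2 ^ (s - u) := by
        rw [show s + 1 - u = (s - u) + 1 by omega, pow_succ]; ring
      have e3 : (0 : ℤ) < 2 ^ (s - u) := by positivity
      rw [e1]
      split_ifs with hc
      · refine ⟨hc, ?_, by linarith, by linarith⟩
        rw [add_assoc, ← e2]; exact a2
      · exact ⟨a1, not_le.1 hc, a3, by linarith⟩
  intro u hu
  obtain ⟨a1, a2, a3, a4⟩ := key u hu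
  refine ⟨a1, a2, abs_le.2 ⟨?_, ?_⟩⟩
  · have : (2 : ℤ) ^ (s + 1) = 2 ^ s + 2 ^ s := by rw [pow_succ]; ring
    have h3 : (0 : ℤ) < 2 ^ s := by positivity
    linarith
  · have : (2 : ℤ) ^ (s + 1) = 2 ^ s + 2 ^ s := by rw [pow_succ]; ring
    have h3 : (0 : ℤ) < 2 ^ s := by positivity
    have h4 : (0 : ℤ) < 2 ^ (s + 1 - u) := by positivity
    linarith

/-- Correctness of the search. -/
theorem rootSearch_spec (h : ℕ → ℤ) (m s : ℕ) (S : Finset ℝ) {a : ℝ} (ha : a ≠ 0)
    (hh : polR h (S.card + 1) = C a * ∏ θ ∈ S, (X - C θ))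
    (hs : ∀ θ ∈ S, |2 ^ m * θ| < 2 ^ s) (i : Fin S.card) :
    |(rootSearch (vcount h S.card m) S.card i s : ℝ) - 2 ^ m * S.orderEmbOfFin rfl i| ≤ 1 ∧
    (∀ u ≤ s + 1, |Cx.loop (fun u k => if S.card - i ≤ vcount h S.card m (k + 2 ^ (s - u)) then
      k + 2 ^ (s - u) else k) u (-2 ^ s)| ≤ 2 ^ (s + 1)) := by
  set x : Fin S.card ↪o ℝ := S.orderEmbOfFin rfl with hx
  have hxm : ∀ j, x j ∈ S := fun j => S.orderEmbOfFin_mem rfl j
  have hcard : ∀ k : ℤ, (S.filter fun θ => (k : ℝ) < 2 ^ m * θ).card =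
      (Finset.univ.filter fun j : Fin S.card => (k : ℝ) < 2 ^ m * x j).card := by
    intro k
    have himg : S.filter (fun θ => (k : ℝ) < 2 ^ m * θ) =
        (Finset.univ.filter fun j : Fin S.card => (k : ℝ) < 2 ^ m * x j).map x.toEmbedding := by
      ext θ
      simp only [Finset.mem_filter, Finset.mem_map, Finset.mem_univ, true_and]
      constructor
      · rintro ⟨h1, h2⟩
        have : θ ∈ Set.range (S.orderEmbOfFin rfl) := by
          rw [Finset.range_orderEmbOfFin]; exact h1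
        obtain ⟨j, rfl⟩ := this
        exact ⟨j, h2, rfl⟩
      · rintro ⟨j, h1, rfl⟩
        exact ⟨hxm j, h1⟩
    rw [himg, Finset.card_map]
  have hpos : (0 : ℝ) < 2 ^ m := by positivity
  have hiff : ∀ k : ℤ, S.card - i ≤ vcount h S.card m k ↔ (k : ℝ) < 2 ^ m * x i := by
    intro k
    rw [vcount_eq h m S ha hh, hcard]
    constructor
    · intro h1
      by_contra h2
      push Not at h2
      have h3 : (Finset.univ.filter fun j : Fin S.card => (k : ℝ) < 2 ^ m * x j) ⊆
          Finset.Ioi i := by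
        intro j hj
        rw [Finset.mem_filter] at hj
        rw [Finset.mem_Ioi]
        by_contra hji
        have h4 : x j ≤ x i := x.monotone (not_lt.1 hji)
        have h5 := mul_le_mul_of_nonneg_left h4 hpos.le
        linarith [hj.2]
      have h4 := Finset.card_le_card h3
      rw [Fin.card_Ioi] at h4
      have := i.2
      omega
    · intro h1
      have h3 : Finset.Ici i ⊆ (Finset.univ.filter fun j : Fin S.card => (k : ℝ) < 2 ^ m * x j) := by
        intro j hj
        rw [Finset.mem_Ici] at hj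
        rw [Finset.mem_filter]
        refine ⟨Finset.mem_univ _, ?_⟩
        have h4 : x i ≤ x j := x.monotone hj
        have h5 := mul_le_mul_of_nonneg_left h4 hpos.le
        linarith
      have h4 := Finset.card_le_card h3
      rw [Fin.card_Ici] at h4
      exact h4
  have hlow : S.card - (i : ℕ) ≤ vcount h S.card m (-2 ^ s) := by
    rw [hiff]
    have := (abs_lt.1 (hs (x i) (hxm i))).1
    push_cast
    exact this
  have hhigh : vcount h S.card m (2 ^ s) < S.card - (i : ℕ) := by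
    rw [← not_le, hiff]
    have := (abs_lt.1 (hs (x i) (hxm i))).2
    push_cast
    exact not_lt.2 this.le
  have hinv := rootSearch_inv hlow hhigh
  refine ⟨?_, fun u hu => (hinv u hu).2.2⟩
  obtain ⟨a1, a2, -⟩ := hinv (s + 1) le_rfl
  change S.card - (i : ℕ) ≤ vcount h S.card m (rootSearch (vcount h S.card m) S.card i s) at a1
  change vcount h S.card m (rootSearch (vcount h S.card m) S.card i s + 2 ^ (s + 1 - (s + 1))) <
    S.card - (i : ℕ) at a2
  rw [hiff] at a1
  rw [← not_le, hiff] at a2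
  push_cast at a2
  rw [Nat.sub_self, pow_zero] at a2
  rw [abs_le]
  constructor <;> linarith

end Pool.Agent.H79
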