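import Pool.Agent.H79.Alg.Support
import Pool.Agent.H79.Alg.Roots
import Pool.Agent.H79.LLL.Block

/-!
Integer relations between the vectors `A ^ i a` and the support polynomial.
-/

open Matrix Polynomial

namespace Pool.Agent.H79

variable {n : ℕ}

/-- The spectral support of an integer vector as a finite set. -/
noncomputable def suppF (A : Matrix (Fin n) (Fin n) ℤ) (a : Fin n → ℤ) : Finset ℝ :=
  (specSupport_finite (castM A) (castV a)).toFinset

theorem mem_suppF {A : Matrix (Fin n) (Fin n) ℤ} {a : Fin n → ℤ} {θ : ℝ} :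
    θ ∈ suppF A a ↔ θ ∈ specSupport (castM A) (castV a) := Set.Finite.mem_toFinset _

theorem suppPoly_eq (A : Matrix (Fin n) (Fin n) ℤ) (a : Fin n → ℤ) :
    suppPoly (castM A) (castV a) = ∏ θ ∈ suppF A a, (X - C θ) := rfl

theorem rel_iff {A : Matrix (Fin n) (Fin n) ℤ} (hA : A.IsSymm) (a : Fin n → ℤ) (r : ℕ)
    (h : ℕ → ℤ) : (∑ i ∈ Finset.range r, h i • (A ^ i *ᵥ a)) = 0 ↔
      ∀ θ ∈ suppF A a, (polR h r).eval θ = 0 := by
  have h1 : (aeval (castM A) (polR h r)) *ᵥ castV a =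
      castV (∑ i ∈ Finset.range r, h i • (A ^ i *ᵥ a)) := by
    unfold polR
    rw [aeval_sum_range]
    funext v
    simp only [Finset.sum_apply, castV]
    push_cast
    refine Finset.sum_congr rfl fun i _ => ?_
    change (h i : ℝ) * (castM A ^ i *ᵥ castV a) v = _
    rw [castV_pow]
    simp [castV]
  have h2 := vanish_iff (castM_symm hA) (castV a) (polR h r)
  rw [h1] at h2
  have h3 : castV (∑ i ∈ Finset.range r, h i • (A ^ i *ᵥ a)) = 0 ↔
      (∑ i ∈ Finset.range r, h i • (A ^ i *ᵥ a)) = 0 := by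
    constructor
    · intro h
      funext v
      have := congrFun h v
      simp only [castV, Pi.zero_apply] at this ⊢
      exact_mod_cast this
    · intro h; rw [h]; funext v; simp [castV]
  rw [← h3, h2]
  simp only [mem_suppF]

theorem polR_ne_zero {h : ℕ → ℤ} {r : ℕ} (hh : ∃ i < r, h i ≠ 0) : polR h r ≠ 0 := by
  obtain ⟨i, hi, hi0⟩ := hh
  intro h0
  have := congrArg (fun p => p.coeff i) h0
  simp only [polR_coeff, if_pos hi, coeff_zero] at this
  exact hi0 (by exact_mod_cast this)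

theorem card_le_of_vanish {h : ℕ → ℤ} {r : ℕ} (hh : ∃ i < r, h i ≠ 0) (S : Finset ℝ)
    (hv : ∀ θ ∈ S, (polR h r).eval θ = 0) : S.card < r := by
  have h0 := polR_ne_zero hh
  have h1 : S.card ≤ (polR h r).natDegree := by
    apply Polynomial.card_le_degree_of_subset_roots
    intro θ hθ
    rw [mem_roots h0]
    exact hv θ hθ
  exact h1.trans_lt (polR_natDegree_lt h0)

theorem polR_eq_of_vanish {h : ℕ → ℤ} (S : Finset ℝ) (hh : ∃ i < S.card + 1, h i ≠ 0)
    (hv : ∀ θ ∈ S, (polR h (S.card + 1)).eval θ = 0) :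
    h S.card ≠ 0 ∧ polR h (S.card + 1) = C (h S.card : ℝ) * ∏ θ ∈ S, (X - C θ) := by
  set P : ℝ[X] := ∏ θ ∈ S, (X - C θ) with hP
  have hPm : P.Monic := monic_prod_of_monic _ _ fun _ _ => monic_X_sub_C _
  have hPd : P.natDegree = S.card := by
    rw [hP, natDegree_prod_of_monic _ _ fun _ _ => monic_X_sub_C _]; simp
  have h0 := polR_ne_zero hh
  have hdvd : P ∣ polR h (S.card + 1) := by
    apply Finset.prod_dvd_of_coprime
    · intro x _ y _ hxy
      exact Polynomial.isCoprime_X_sub_C_of_isUnit_sub (sub_ne_zero.2 hxy).isUnit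
    · intro θ hθ
      exact dvd_iff_isRoot.2 (hv θ hθ)
  obtain ⟨q, hq⟩ := hdvd
  have hq0 : q ≠ 0 := by
    rintro rfl
    rw [mul_zero] at hq
    exact h0 hq
  have hdeg : (polR h (S.card + 1)).natDegree = P.natDegree + q.natDegree := by
    rw [hq, hPm.natDegree_mul' hq0]
  have h1 := polR_natDegree_lt h0
  have hq1 : q.natDegree = 0 := by omega
  obtain ⟨c, rfl⟩ := natDegree_eq_zero.1 hq1
  have hc : c = (h S.card : ℝ) := by
    have h2 : (polR h (S.card + 1)).coeff S.card = c := by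
      rw [hq, coeff_mul_C, ← hPd, hPm.coeff_natDegree, one_mul]
    rw [polR_coeff, if_pos (by omega)] at h2
    exact h2.symm
  refine ⟨?_, ?_⟩
  · intro h2
    rw [h2, Int.cast_zero] at hc
    rw [hc] at hq0
    simp at hq0
  · rw [hq, hc, mul_comm]

theorem abs_le_of_mem_specSupport {A : Matrix (Fin n) (Fin n) ℤ} (hA : ∀ i j, |A i j| ≤ 1)
    {a : Fin n → ℤ} {θ : ℝ} (h : θ ∈ suppF A a) : |θ| ≤ n := by
  rw [mem_suppF] at h
  obtain ⟨y, hy, hya⟩ := h
  have hy0 : y ≠ 0 := by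
    rintro rfl
    simp at hya
  have hne : (Finset.univ : Finset (Fin n)).Nonempty := by
    by_contra hemp
    rw [Finset.not_nonempty_iff_eq_empty, Finset.univ_eq_empty_iff] at hemp
    exact hy0 (funext fun i => (hemp.false i).elim)
  obtain ⟨i, -, hi⟩ := Finset.exists_max_image Finset.univ (fun i => |y i|) hne
  have hyi : 0 < |y i| := by
    rw [abs_pos]
    intro h0
    apply hy0
    funext j
    have := hi j (Finset.mem_univ j)
    rw [h0, abs_zero] at this
    exact abs_nonpos_iff.1 this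
  have h1 := congrFun hy i
  simp only [Pi.smul_apply, smul_eq_mul] at h1
  have h2 : |θ| * |y i| ≤ n * |y i| := by
    rw [← abs_mul, ← h1]
    unfold Matrix.mulVec dotProduct
    calc |∑ j, castM A i j * y j| ≤ ∑ j, |castM A i j * y j| := Finset.abs_sum_le_sum_abs _ _
      _ ≤ ∑ _j : Fin n, |y i| := by
          refine Finset.sum_le_sum fun j _ => ?_
          rw [abs_mul]
          have a1 : |castM A i j| ≤ 1 := by
            unfold castM
            rw [Matrix.map_apply]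
            exact_mod_cast hA i j
          have a2 := hi j (Finset.mem_univ j)
          calc |castM A i j| * |y j| ≤ 1 * |y i| :=
                mul_le_mul a1 a2 (abs_nonneg _) zero_le_one
            _ = |y i| := one_mul _
      _ = n * |y i| := by simp
  exact le_of_mul_le_mul_right h2 hyi

theorem card_suppF_le (A : Matrix (Fin n) (Fin n) ℤ) (a : Fin n → ℤ) : (suppF A a).card ≤ n := by
  have h1 : (suppF A a).card ≤ (castM A).charpoly.natDegree := by
    apply Polynomial.card_le_degree_of_subset_roots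
    intro θ hθ
    rw [mem_roots (Matrix.charpoly_monic _).ne_zero]
    exact isRoot_of_mem_specSupport (mem_suppF.1 hθ)
  rw [Matrix.charpoly_natDegree_eq_dim, Fintype.card_fin] at h1
  exact h1

theorem succ_le_two_pow (n : ℕ) : n + 1 ≤ 2 ^ n := Nat.lt_two_pow_self

/-- Coefficient bound for monic integer polynomials with bounded real roots. -/
theorem coeff_bound {p : ℤ[X]} (hp : p.Monic) {k : ℕ} {D : ℕ}
    (hsplit : (p.map (Int.castRingHom ℝ)).Splits)
    (hroots : ∀ θ ∈ (p.map (Int.castRingHom ℝ)).roots, |θ| ≤ 2 ^ k) (hD : p.natDegree ≤ D)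
    (i : ℕ) : |p.coeff i| ≤ 2 ^ (k * D + D) := by
  have h0 : ((p.map (Int.castRingHom ℚ)).map (algebraMap ℚ ℝ)) = p.map (Int.castRingHom ℝ) := by
    rw [Polynomial.map_map]; congr 1
  have h1 := coeff_bdd_of_roots_le (B := 2 ^ k) (d := D) (algebraMap ℚ ℝ)
    (p := p.map (Int.castRingHom ℚ)) (hp.map _) (by rw [h0]; exact hsplit)
    (by rw [hp.natDegree_map]; exact hD) (by
      intro z hz
      rw [h0] at hz
      exact hroots z hz) i
  rw [h0, coeff_map, eq_intCast, Real.norm_eq_abs] at h1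
  have h2 : max ((2 : ℝ) ^ k) 1 = 2 ^ k := max_eq_left (one_le_pow₀ (by norm_num))
  rw [h2] at h1
  have h3 : ((D.choose (D / 2) : ℕ) : ℝ) ≤ 2 ^ D := by
    exact_mod_cast Nat.choose_le_two_pow D (D / 2)
  have h4 : |((p.coeff i : ℤ) : ℝ)| ≤ 2 ^ (k * D + D) := by
    rw [pow_add, pow_mul]
    exact h1.trans (mul_le_mul_of_nonneg_left h3 (by positivity))
  exact_mod_cast h4

/-- The exponent of the threshold for the first kind of relation. -/
def tau1 (n : ℕ) : ℕ := 2 * (n * n + n) + 2 * n + 1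

/-- The rows of the first kind of relation. -/
def u1 (A : Matrix (Fin n) (Fin n) ℤ) (a : Fin n → ℤ) (i t : ℕ) : ℤ :=
  if h : t < n then 2 ^ tau1 n * (A ^ i *ᵥ a) ⟨t, h⟩ else 0

theorem nrm_u1 (A : Matrix (Fin n) (Fin n) ℤ) (a : Fin n → ℤ) (r : ℕ) (h : ℕ → ℤ) :
    LLL.nrm n (u1 A a) r h = (2 ^ tau1 n) ^ 2 *
      ((∑ i ∈ Finset.range r, h i • (A ^ i *ᵥ a)) ⬝ᵥ (∑ i ∈ Finset.range r, h i • (A ^ i *ᵥ a))) +
      ∑ i ∈ Finset.range r, h i ^ 2 := by
  unfold LLL.nrm
  congr 1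
  rw [Finset.sum_range, dotProduct, Finset.mul_sum]
  refine Finset.sum_congr rfl fun t _ => ?_
  have h1 : ∑ i ∈ Finset.range r, h i * u1 A a i t =
      2 ^ tau1 n * (∑ i ∈ Finset.range r, h i • (A ^ i *ᵥ a)) t := by
    simp only [Finset.sum_apply, Pi.smul_apply, smul_eq_mul, Finset.mul_sum]
    refine Finset.sum_congr rfl fun i _ => ?_
    unfold u1
    rw [dif_pos t.2]
    ring
  rw [h1]
  ring

theorem u1_low {A : Matrix (Fin n) (Fin n) ℤ} (hA : A.IsSymm) (a : Fin n → ℤ) (h : ℕ → ℤ)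
    {r : ℕ} (hr : r ≤ (suppF A a).card) (hh : ∃ i < r, h i ≠ 0) :
    2 ^ tau1 n < LLL.nrm n (u1 A a) r h := by
  have h1 : (∑ i ∈ Finset.range r, h i • (A ^ i *ᵥ a)) ≠ 0 := by
    intro h0
    have := card_le_of_vanish hh _ ((rel_iff hA a r h).1 h0)
    omega
  rw [nrm_u1]
  have h2 : 1 ≤ (∑ i ∈ Finset.range r, h i • (A ^ i *ᵥ a)) ⬝ᵥ
      (∑ i ∈ Finset.range r, h i • (A ^ i *ᵥ a)) := by
    have h3 : 0 ≤ (∑ i ∈ Finset.range r, h i • (A ^ i *ᵥ a)) ⬝ᵥ
      (∑ i ∈ Finset.range r, h i • (A ^ i *ᵥ a)) :=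
      Finset.sum_nonneg fun _ _ => mul_self_nonneg _
    have h4 : (∑ i ∈ Finset.range r, h i • (A ^ i *ᵥ a)) ⬝ᵥ
      (∑ i ∈ Finset.range r, h i • (A ^ i *ᵥ a)) ≠ 0 := fun h5 =>
      h1 (dotProduct_self_eq_zero.1 h5)
    omega
  have h5 : 0 ≤ ∑ i ∈ Finset.range r, h i ^ 2 := Finset.sum_nonneg fun _ _ => sq_nonneg _
  have h6 : (1 : ℤ) < 2 ^ tau1 n := one_lt_pow₀ (by norm_num) (by unfold tau1; omega)
  nlinarith

theorem u1_up {A : Matrix (Fin n) (Fin n) ℤ} (hA : A.IsSymm) (hA1 : ∀ i j, |A i j| ≤ 1)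
    (a : Fin n → ℤ) : ∃ h : ℕ → ℤ, (∃ i < (suppF A a).card + 1, h i ≠ 0) ∧
      2 ^ ((suppF A a).card + 1) * LLL.nrm n (u1 A a) ((suppF A a).card + 1) h ≤ 2 ^ tau1 n := by
  obtain ⟨p, hpm, hp⟩ := exists_int_suppPoly hA a
  rw [suppPoly_eq] at hp
  set S := suppF A a with hS
  have hSn : S.card ≤ n := card_suppF_le A a
  have hpd : p.natDegree = S.card := by
    rw [← hpm.natDegree_map (Int.castRingHom ℝ), hp,
      natDegree_prod_of_monic _ _ fun _ _ => monic_X_sub_C _]
    simp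
  have hpol : polR (fun i => p.coeff i) (S.card + 1) = p.map (Int.castRingHom ℝ) := by
    ext i
    rw [polR_coeff, coeff_map, eq_intCast]
    split_ifs with hi
    · rfl
    · rw [coeff_eq_zero_of_natDegree_lt (by omega)]; simp
  have hrel : (∑ i ∈ Finset.range (S.card + 1), p.coeff i • (A ^ i *ᵥ a)) = 0 := by
    rw [rel_iff hA]
    intro θ hθ
    rw [hpol, hp, eval_prod]
    apply Finset.prod_eq_zero hθ
    simp
  refine ⟨fun i => p.coeff i, ⟨S.card, by omega, ?_⟩, ?_⟩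
  · change p.coeff S.card ≠ 0
    rw [← hpd, hpm.coeff_natDegree]; exact one_ne_zero
  · rw [nrm_u1, hrel, dotProduct_zero, mul_zero, zero_add]
    have hb : ∀ i, |p.coeff i| ≤ 2 ^ (n * n + n) := by
      intro i
      apply coeff_bound hpm _ _ (by omega : p.natDegree ≤ n)
      · rw [hp]
        exact Splits.prod fun θ _ => Splits.X_sub_C θ
      · intro θ hθ
        rw [hp, roots_prod_X_sub_C] at hθ
        refine (abs_le_of_mem_specSupport hA1 hθ).trans ?_
        exact_mod_cast Nat.lt_two_pow_self.le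
    have h1 : ∑ i ∈ Finset.range (S.card + 1), p.coeff i ^ 2 ≤
        ∑ _i ∈ Finset.range (S.card + 1), (2 : ℤ) ^ (2 * (n * n + n)) := by
      refine Finset.sum_le_sum fun i _ => ?_
      rw [mul_comm 2, pow_mul]
      rw [← sq_abs]
      exact pow_le_pow_left₀ (abs_nonneg _) (hb i) 2
    rw [Finset.sum_const, Finset.card_range, nsmul_eq_mul] at h1
    have h2 : ((S.card + 1 : ℕ) : ℤ) ≤ 2 ^ n := by
      have := succ_le_two_pow n
      have h3 : S.card + 1 ≤ 2 ^ n := by omega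
      exact_mod_cast h3
    have h3 : (2 : ℤ) ^ (S.card + 1) ≤ 2 ^ (n + 1) := pow_le_pow_right₀ (by norm_num) (by omega)
    calc 2 ^ (S.card + 1) * ∑ i ∈ Finset.range (S.card + 1), p.coeff i ^ 2
        ≤ 2 ^ (n + 1) * (2 ^ n * 2 ^ (2 * (n * n + n))) := by
          refine mul_le_mul h3 (h1.trans ?_) (Finset.sum_nonneg fun _ _ => sq_nonneg _)
            (by positivity)
          exact mul_le_mul_of_nonneg_right h2 (by positivity)
      _ = 2 ^ tau1 n := by
          unfold tau1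
          rw [← pow_add, ← pow_add]
          congr 1
          ring

/-- A relation found below the threshold gives the support polynomial. -/
theorem u1_result {A : Matrix (Fin n) (Fin n) ℤ} (hA : A.IsSymm) (a : Fin n → ℤ) {h : ℕ → ℤ}
    (hh : ∃ i < (suppF A a).card + 1, h i ≠ 0)
    (hn : LLL.nrm n (u1 A a) ((suppF A a).card + 1) h ≤ 2 ^ tau1 n) :
    h (suppF A a).card ≠ 0 ∧ polR h ((suppF A a).card + 1) =
      C (h (suppF A a).card : ℝ) * ∏ θ ∈ suppF A a, (X - C θ) := by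
  apply polR_eq_of_vanish _ hh
  rw [← rel_iff hA]
  set w := ∑ i ∈ Finset.range ((suppF A a).card + 1), h i • (A ^ i *ᵥ a) with hw
  by_contra hne
  have h2 : 1 ≤ w ⬝ᵥ w := by
    have h3 : 0 ≤ w ⬝ᵥ w := Finset.sum_nonneg fun _ _ => mul_self_nonneg _
    have h4 : w ⬝ᵥ w ≠ 0 := fun h5 => hne (dotProduct_self_eq_zero.1 h5)
    omega
  rw [nrm_u1, ← hw] at hn
  have h5 : 0 ≤ ∑ i ∈ Finset.range ((suppF A a).card + 1), h i ^ 2 :=
    Finset.sum_nonneg fun _ _ => sq_nonneg _
  have h6 : (1 : ℤ) < 2 ^ tau1 n := one_lt_pow₀ (by norm_num) (by unfold tau1; omega)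
  nlinarith

end Pool.Agent.H79
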