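import Pool.Agent.H79.Criterion

/-!
The minimal polynomial of a symmetric integer matrix relative to an integer vector.
-/

open Matrix Polynomial

namespace Pool.Agent.H79

variable {V : Type*} [Fintype V] [DecidableEq V]

theorem aeval_spectral {Q : Matrix V V ℝ} {lam : V → ℝ} (hQ : Q * Qᵀ = 1) (hQ' : Qᵀ * Q = 1)
    (f : ℝ[X]) : aeval (Q * Matrix.diagonal lam * Qᵀ) f =
      Q * Matrix.diagonal (fun i => f.eval (lam i)) * Qᵀ := by
  induction f using Polynomial.induction_on' with
  | add p q hp hq =>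
    rw [map_add, hp, hq, ← Matrix.add_mul, ← Matrix.mul_add, Matrix.diagonal_add]
    congr 3
    funext i
    rw [Polynomial.eval_add]
  | monomial n a =>
    have hpow : ∀ n : ℕ, (Q * Matrix.diagonal lam * Qᵀ) ^ n =
        Q * Matrix.diagonal (fun i => lam i ^ n) * Qᵀ := by
      intro n
      induction n with
      | zero => simp [hQ]
      | succ n ih =>
        rw [pow_succ, ih]
        have : Q * Matrix.diagonal (fun i => lam i ^ n) * Qᵀ * (Q * Matrix.diagonal lam * Qᵀ) =
            Q * (Matrix.diagonal (fun i => lam i ^ n) * (Qᵀ * Q) * Matrix.diagonal lam) * Qᵀ := by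
          simp only [Matrix.mul_assoc]
        rw [this, hQ', Matrix.mul_one, Matrix.diagonal_mul_diagonal]
        rfl
    rw [aeval_monomial, hpow]
    simp only [eval_monomial]
    have h2 : Matrix.diagonal (fun i => a * lam i ^ n) =
        a • Matrix.diagonal (fun i => lam i ^ n) := by
      rw [← Matrix.diagonal_smul]
      rfl
    rw [h2, Matrix.mul_smul, Matrix.smul_mul, ← Algebra.smul_def]

/-- A polynomial in `A` kills `a` iff it vanishes on the spectral support of `a`. -/
theorem vanish_iff {A : Matrix V V ℝ} (hA : A.IsSymm) (a : V → ℝ) (f : ℝ[X]) :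
    (aeval A f) *ᵥ a = 0 ↔ ∀ θ ∈ specSupport A a, f.eval θ = 0 := by
  obtain ⟨Q, lam, hQ, hQ', hspec⟩ := exists_spectral A hA
  rw [specSupport_eq hQ hQ' hspec]
  have h1 : (aeval A f) *ᵥ a = Q *ᵥ (Matrix.diagonal (fun i => f.eval (lam i)) *ᵥ (Qᵀ *ᵥ a)) := by
    rw [hspec, aeval_spectral hQ hQ']
    simp only [Matrix.mulVec_mulVec, Matrix.mul_assoc]
  rw [h1]
  constructor
  · intro h θ hθ
    obtain ⟨i, rfl, hi⟩ := hθ
    have h2 : Qᵀ *ᵥ (Q *ᵥ (Matrix.diagonal (fun i => f.eval (lam i)) *ᵥ (Qᵀ *ᵥ a))) = 0 := by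
      rw [h, Matrix.mulVec_zero]
    rw [Matrix.mulVec_mulVec, hQ', Matrix.one_mulVec] at h2
    have h3 := congrFun h2 i
    rw [Matrix.mulVec_diagonal, Pi.zero_apply] at h3
    exact (mul_eq_zero.1 h3).resolve_right hi
  · intro h
    have : Matrix.diagonal (fun i => f.eval (lam i)) *ᵥ (Qᵀ *ᵥ a) = 0 := by
      funext i
      rw [Matrix.mulVec_diagonal, Pi.zero_apply]
      by_cases hi : (Qᵀ *ᵥ a) i = 0
      · rw [hi, mul_zero]
      · rw [h (lam i) ⟨i, rfl, hi⟩, zero_mul]
    rw [this, Matrix.mulVec_zero]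

/-- The real polynomial with simple roots at the support. -/
noncomputable def suppPoly (A : Matrix V V ℝ) (a : V → ℝ) : ℝ[X] :=
  ∏ θ ∈ (specSupport_finite A a).toFinset, (X - C θ)

theorem suppPoly_monic (A : Matrix V V ℝ) (a : V → ℝ) : (suppPoly A a).Monic :=
  monic_prod_of_monic _ _ fun _ _ => monic_X_sub_C _

theorem suppPoly_natDegree (A : Matrix V V ℝ) (a : V → ℝ) :
    (suppPoly A a).natDegree = (specSupport_finite A a).toFinset.card := by
  unfold suppPoly
  rw [natDegree_prod_of_monic _ _ fun _ _ => monic_X_sub_C _]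
  simp

theorem suppPoly_dvd {A : Matrix V V ℝ} {a : V → ℝ} {f : ℝ[X]}
    (h : ∀ θ ∈ specSupport A a, f.eval θ = 0) : suppPoly A a ∣ f := by
  unfold suppPoly
  apply Finset.prod_dvd_of_coprime
  · intro x _ y _ hxy
    exact Polynomial.isCoprime_X_sub_C_of_isUnit_sub (sub_ne_zero.2 hxy).isUnit
  · intro θ hθ
    rw [Set.Finite.mem_toFinset] at hθ
    exact dvd_iff_isRoot.2 (h θ hθ)

theorem eval_suppPoly {A : Matrix V V ℝ} {a : V → ℝ} {θ : ℝ} (h : θ ∈ specSupport A a) :
    (suppPoly A a).eval θ = 0 := by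
  unfold suppPoly
  rw [eval_prod]
  apply Finset.prod_eq_zero (i := θ)
  · rw [Set.Finite.mem_toFinset]; exact h
  · simp

/-- The real vector of an integer vector. -/
def castV (a : V → ℤ) : V → ℝ := fun v => (a v : ℝ)

/-- The real matrix of an integer matrix. -/
def castM (A : Matrix V V ℤ) : Matrix V V ℝ := A.map (Int.cast : ℤ → ℝ)

omit [Fintype V] [DecidableEq V] in
theorem castM_symm {A : Matrix V V ℤ} (hA : A.IsSymm) : (castM A).IsSymm := by
  unfold castM
  rw [Matrix.IsSymm, ← Matrix.transpose_map, hA.eq]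

theorem castM_charpoly (A : Matrix V V ℤ) :
    (castM A).charpoly = A.charpoly.map (Int.castRingHom ℝ) :=
  Matrix.charpoly_map A (Int.castRingHom ℝ)

/-- Real vectors `A ^ i a` come from integer vectors. -/
theorem castV_pow (A : Matrix V V ℤ) (a : V → ℤ) (i : ℕ) :
    (castM A) ^ i *ᵥ castV a = castV (A ^ i *ᵥ a) := by
  have h1 : (castM A) ^ i = castM (A ^ i) := by
    have := (RingHom.mapMatrix (m := V) (Int.castRingHom ℝ)).map_pow A i
    exact this.symm
  rw [h1]
  funext v
  simp [castM, castV, Matrix.mulVec, dotProduct]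

theorem aeval_sum_range (A : Matrix V V ℝ) (a : V → ℝ) (e : ℕ) (c : ℕ → ℝ) :
    (aeval A (∑ i ∈ Finset.range e, C (c i) * X ^ i)) *ᵥ a =
      ∑ i ∈ Finset.range e, c i • (A ^ i *ᵥ a) := by
  rw [map_sum, Matrix.sum_mulVec]
  refine Finset.sum_congr rfl fun i _ => ?_
  rw [map_mul, aeval_C, map_pow, aeval_X, ← Algebra.smul_def, Matrix.smul_mulVec]

/-- A rational relation of minimal length exists. -/
theorem exists_rat_relation {A : Matrix V V ℤ} (hA : A.IsSymm) (a : V → ℤ) :
    ∃ f : ℚ[X], f ≠ 0 ∧ f.natDegree ≤ (suppPoly (castM A) (castV a)).natDegree ∧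
      ∀ θ ∈ specSupport (castM A) (castV a), (f.map (algebraMap ℚ ℝ)).eval θ = 0 := by
  classical
  set s := (suppPoly (castM A) (castV a)).natDegree with hs
  set G : Matrix (Fin (s + 1)) (Fin (s + 1)) ℤ :=
    Matrix.of fun i j => (A ^ (i : ℕ) *ᵥ a) ⬝ᵥ (A ^ (j : ℕ) *ᵥ a) with hG
  set P := suppPoly (castM A) (castV a) with hP
  have hPa : (aeval (castM A) P) *ᵥ castV a = 0 :=
    (vanish_iff (castM_symm hA) _ _).2 fun θ hθ => eval_suppPoly hθ
  have hPsum : P = ∑ i ∈ Finset.range (s + 1), C (P.coeff i) * X ^ i :=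
    P.as_sum_range_C_mul_X_pow
  rw [hPsum, aeval_sum_range] at hPa
  have hdetR : (G.map (Int.castRingHom ℝ)).det = 0 := by
    rw [← Matrix.exists_mulVec_eq_zero_iff]
    refine ⟨fun i => P.coeff i, ?_, ?_⟩
    · intro h0
      have := congrFun h0 (Fin.last s)
      have h1 : P.coeff s = 1 := (suppPoly_monic _ _).coeff_natDegree
      simp only [Fin.val_last, Pi.zero_apply] at this
      rw [h1] at this
      exact one_ne_zero this
    · funext i
      simp only [Matrix.mulVec, dotProduct, Matrix.map_apply, Pi.zero_apply]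
      have h1 : ∀ j : Fin (s + 1), (Int.castRingHom ℝ) (G i j) * P.coeff j =
          castV (A ^ (i : ℕ) *ᵥ a) ⬝ᵥ (P.coeff j • castV (A ^ (j : ℕ) *ᵥ a)) := by
        intro j
        rw [dotProduct_smul, smul_eq_mul, mul_comm]
        congr 1
        simp [hG, castV, dotProduct]
      rw [Finset.sum_congr rfl fun j _ => h1 j, ← dotProduct_sum]
      have h2 : ∑ j : Fin (s + 1), P.coeff j • castV (A ^ (j : ℕ) *ᵥ a) = 0 := by
        rw [Fin.sum_univ_eq_sum_range (fun j => P.coeff j • castV (A ^ j *ᵥ a)) (s + 1), ← hPa]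
        exact Finset.sum_congr rfl fun j _ => by rw [castV_pow]
      rw [h2, dotProduct_zero]
  have hdetZ : G.det = 0 := by
    have := RingHom.map_det (Int.castRingHom ℝ) G
    rw [RingHom.mapMatrix_apply] at this
    rw [hdetR, eq_intCast] at this
    exact_mod_cast this
  obtain ⟨v, hv0, hv⟩ := Matrix.exists_mulVec_eq_zero_iff.2 hdetZ
  -- the integer relation
  have hrel : ∑ i : Fin (s + 1), v i • (A ^ (i : ℕ) *ᵥ a) = 0 := by
    set w := ∑ i : Fin (s + 1), v i • (A ^ (i : ℕ) *ᵥ a) with hw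
    have h1 : w ⬝ᵥ w = 0 := by
      have h2 : ∀ i : Fin (s + 1), (A ^ (i : ℕ) *ᵥ a) ⬝ᵥ w = 0 := by
        intro i
        have := congrFun hv i
        simp only [Matrix.mulVec, dotProduct, Pi.zero_apply] at this
        rw [hw, dotProduct_sum, ← this]
        refine Finset.sum_congr rfl fun j _ => ?_
        rw [dotProduct_smul, smul_eq_mul, mul_comm]
        rfl
      conv_lhs => rw [hw, sum_dotProduct]
      refine Finset.sum_eq_zero fun i _ => ?_
      rw [smul_dotProduct, h2, smul_zero]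
    exact dotProduct_self_eq_zero.1 h1
  refine ⟨∑ i ∈ Finset.range (s + 1), C (if h : i < s + 1 then ((v ⟨i, h⟩ : ℤ) : ℚ) else 0) * X ^ i,
    ?_, ?_, ?_⟩
  · intro h0
    apply hv0
    funext i
    have := congrArg (fun p => Polynomial.coeff p (i : ℕ)) h0
    simp only [finsetSum_coeff, coeff_C_mul, coeff_X_pow, coeff_zero] at this
    rw [Finset.sum_eq_single (i : ℕ)] at this
    · simpa [i.2] using this
    · intro j _ hj
      simp [Ne.symm hj]
    · intro hi
      exact absurd (Finset.mem_range.2 i.2) hi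
  · refine natDegree_sum_le_of_forall_le _ _ fun i hi => ?_
    refine (natDegree_C_mul_X_pow_le _ _).trans ?_
    have := Finset.mem_range.1 hi
    omega
  · intro θ hθ
    set c : ℕ → ℝ := fun i => if h : i < s + 1 then ((v ⟨i, h⟩ : ℤ) : ℝ) else 0 with hc
    have h1 : (∑ i ∈ Finset.range (s + 1),
        C (if h : i < s + 1 then ((v ⟨i, h⟩ : ℤ) : ℚ) else 0) * X ^ i).map (algebraMap ℚ ℝ) =
        ∑ i ∈ Finset.range (s + 1), C (c i) * X ^ i := by
      rw [Polynomial.map_sum]
      refine Finset.sum_congr rfl fun i hi => ?_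
      have hi' := Finset.mem_range.1 hi
      simp only [Polynomial.map_mul, map_C, Polynomial.map_pow, map_X, hc, dif_pos hi']
      congr 2
    rw [h1]
    refine (vanish_iff (castM_symm hA) (castV a) _).1 ?_ θ hθ
    rw [aeval_sum_range]
    rw [← Fin.sum_univ_eq_sum_range (fun i => c i • (castM A ^ i *ᵥ castV a)) (s + 1)]
    have h2 : ∀ i : Fin (s + 1), c i • (castM A ^ (i : ℕ) *ᵥ castV a) =
        castV (v i • (A ^ (i : ℕ) *ᵥ a)) := by
      intro i
      have hi : (i : ℕ) < s + 1 := i.2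
      rw [castV_pow, hc]
      beta_reduce
      rw [dif_pos hi]
      funext w
      simp [castV]
    rw [Finset.sum_congr rfl fun i _ => h2 i]
    funext w
    have h3 := congrFun hrel w
    simp only [Finset.sum_apply, Pi.zero_apply] at h3 ⊢
    simp only [castV]
    exact_mod_cast h3

/-- The support polynomial has integer coefficients. -/
theorem exists_int_suppPoly {A : Matrix V V ℤ} (hA : A.IsSymm) (a : V → ℤ) :
    ∃ p : ℤ[X], p.Monic ∧ p.map (Int.castRingHom ℝ) = suppPoly (castM A) (castV a) := by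
  obtain ⟨f, hf0, hfd, hfv⟩ := exists_rat_relation hA a
  set P := suppPoly (castM A) (castV a) with hP
  have hdvd : P ∣ f.map (algebraMap ℚ ℝ) := suppPoly_dvd hfv
  have hfR0 : f.map (algebraMap ℚ ℝ) ≠ 0 := (Polynomial.map_ne_zero_iff (algebraMap ℚ ℝ).injective).2 hf0
  -- f = c * P
  have hfP : f.map (algebraMap ℚ ℝ) = C ((algebraMap ℚ ℝ) f.leadingCoeff) * P := by
    obtain ⟨q, hq⟩ := hdvd
    have hq0 : q ≠ 0 := by
      rintro rfl
      rw [mul_zero] at hq
      exact hfR0 hq
    have hdeg : (f.map (algebraMap ℚ ℝ)).natDegree = P.natDegree + q.natDegree := by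
      rw [hq, (suppPoly_monic _ _).natDegree_mul' hq0]
    rw [natDegree_map] at hdeg
    have hq1 : q.natDegree = 0 := by omega
    obtain ⟨c, rfl⟩ := natDegree_eq_zero.1 hq1
    have hlead : (f.map (algebraMap ℚ ℝ)).leadingCoeff = c := by
      rw [hq, leadingCoeff_mul, (suppPoly_monic _ _).leadingCoeff, one_mul, leadingCoeff_C]
    rw [leadingCoeff_map] at hlead
    rw [hq, hlead, mul_comm]
  have hlc : f.leadingCoeff ≠ 0 := leadingCoeff_ne_zero.2 hf0
  set g : ℚ[X] := C (f.leadingCoeff)⁻¹ * f with hg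
  have hgP : g.map (algebraMap ℚ ℝ) = P := by
    rw [hg, Polynomial.map_mul, map_C, hfP, ← mul_assoc, ← C_mul, ← map_mul,
      inv_mul_cancel₀ hlc, map_one, C_1, one_mul]
  have hgm : g.Monic := by
    rw [hg, Monic, leadingCoeff_mul, leadingCoeff_C, inv_mul_cancel₀ hlc]
  have hPchar : P ∣ (castM A).charpoly := by
    apply suppPoly_dvd
    intro θ hθ
    exact isRoot_of_mem_specSupport hθ
  have hgchar : g ∣ A.charpoly.map (algebraMap ℤ ℚ) := by
    rw [← Polynomial.map_dvd_map' (algebraMap ℚ ℝ), hgP, Polynomial.map_map]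
    have : (algebraMap ℚ ℝ).comp (algebraMap ℤ ℚ) = Int.castRingHom ℝ := RingHom.ext_int _ _
    rw [this, ← castM_charpoly]
    exact hPchar
  obtain ⟨p, hp⟩ := IsIntegrallyClosed.eq_map_mul_C_of_dvd ℚ (Matrix.charpoly_monic A) hgchar
  rw [hgm.leadingCoeff, C_1, mul_one] at hp
  refine ⟨p, ?_, ?_⟩
  · rw [← hp] at hgm
    exact Polynomial.monic_of_injective (algebraMap ℤ ℚ).injective_int hgm
  · rw [← hgP, ← hp, Polynomial.map_map]
    congr 1

end Pool.Agent.H79
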